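import Pool.Agent.H72.LD.Core

set_option autoImplicit false

namespace Pool.Agent.H72.LD

open Finset Pool.Agent.H630R2.LR Pool.Agent.R533.VC

/-- The protocol for a fractional conjunction of functions of growth `D`. -/
theorem proto_frac {X Y ι : Type*} [Fintype X] [Fintype Y] [Fintype ι] (F : X → Y → Bool)
    (m D : ℕ) (h : ι → X → Y → Bool) (hG : ∀ j, Growth (h j) D) (p : ι → ℝ) (hp : ∀ j, 0 ≤ p j)
    (hp1 : ∑ j, p j ≤ 1) (hF1 : ∀ x y, F x y = true → ∀ j, h j x y = true)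
    (hF0 : ∀ x y, F x y = false → 1 ≤ m * ∑ j, if h j x y = false then p j else 0) :
    ∃ b, Proto F b ∧ (b : ℝ) ≤ 88 * ((D : ℝ) + 1) * (Real.logb 2 ((comm F).rank : ℝ) + 1) *
      (Real.logb 2 ((comm F).rank : ℝ) + 1 + Real.logb 2 ((m : ℝ) + 1)) := by
  set r := (comm F).rank with hr
  set L := Real.logb 2 (r : ℝ) + 1 with hL
  have hL1 : 1 ≤ L := by
    have := logb_nonneg r
    linarith
  set M := Real.logb 2 ((m : ℝ) + 1) with hM
  have hM0 : 0 ≤ M := Real.logb_nonneg (by norm_num) (by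
    have : (0 : ℝ) ≤ m := Nat.cast_nonneg _
    linarith)
  have hD0 : (0 : ℝ) ≤ D := Nat.cast_nonneg _
  have hone : (1 : ℝ) ≤ L * (L + M) := by nlinarith
  set u := Nat.clog 2 (r + 1) with hu
  set w := Nat.clog 2 (m + 1) with hw
  have hru : r + 1 ≤ 2 ^ u := Nat.le_pow_clog (by norm_num) _
  have hmw : m + 1 ≤ 2 ^ w := Nat.le_pow_clog (by norm_num) _
  by_cases hDr : r + 1 ≤ D
  · refine ⟨r + 1, proto_rank F, ?_⟩
    have h1 : ((r + 1 : ℕ) : ℝ) ≤ D := by exact_mod_cast hDr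
    have h2 : (D : ℝ) * 1 ≤ D * (L * (L + M)) := mul_le_mul_of_nonneg_left hone hD0
    nlinarith
  push Not at hDr
  have hDu : D ≤ 2 ^ u := by omega
  have hR := rich_frac F m D h hG p hp hp1 hF1 hF0 r hr.ge (7 + 2 * u + w) (u + 1) (by
    calc 128 * (r + 1) ^ 2 * m ≤ 128 * (2 ^ u) ^ 2 * 2 ^ w :=
          Nat.mul_le_mul (Nat.mul_le_mul_left _ (Nat.pow_le_pow_left hru 2)) (by omega)
      _ = 2 ^ (7 + 2 * u + w) := by rw [pow_add, pow_add, ← pow_mul, mul_comm u 2]; norm_num) (by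
    rw [pow_succ]
    omega)
  set e := 7 + 2 * u + w + (u + 1) with he
  have hq : 4 + 32 * (4 * (r + 1) * m) ^ 2 * 2 ^ (2 * D * e + 2) ≤
      2 ^ (12 + 2 * u + 2 * w + 2 * D * e) := by
    have h1 : 32 * (4 * (r + 1) * m) ^ 2 * 2 ^ (2 * D * e + 2) ≤
        2 ^ (11 + 2 * u + 2 * w + 2 * D * e) := by
      calc 32 * (4 * (r + 1) * m) ^ 2 * 2 ^ (2 * D * e + 2)
          ≤ 32 * (4 * 2 ^ u * 2 ^ w) ^ 2 * 2 ^ (2 * D * e + 2) := by
            refine Nat.mul_le_mul_right _ (Nat.mul_le_mul_left _ (Nat.pow_le_pow_left ?_ 2))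
            exact Nat.mul_le_mul (Nat.mul_le_mul_left _ hru) (by omega)
        _ = 2 ^ (11 + 2 * u + 2 * w + 2 * D * e) := by
            rw [mul_pow, mul_pow, ← pow_mul, ← pow_mul, pow_add, pow_add, pow_add, pow_add,
              mul_comm u 2, mul_comm w 2]
            ring
    have h2 : 4 ≤ 2 ^ (11 + 2 * u + 2 * w + 2 * D * e) := by
      calc 4 = 2 ^ 2 := by norm_num
        _ ≤ _ := Nat.pow_le_pow_right (by norm_num) (by omega)
    have h3 : 2 ^ (12 + 2 * u + 2 * w + 2 * D * e) = 2 * 2 ^ (11 + 2 * u + 2 * w + 2 * D * e) := by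
      rw [← pow_succ']
      congr 1
      ring
    omega
  have hR' : Rich F (2 ^ (12 + 2 * u + 2 * w + 2 * D * e)) := by
    intro A B hA hB
    obtain ⟨A', hA', B', hB', v, hv, hc⟩ := hR A B hA hB
    exact ⟨A', hA', B', hB', v, hv, hc.trans (Nat.mul_le_mul_right _ hq)⟩
  have hP := nw F _ Nat.one_le_two_pow hR' (13 + 3 * u + 2 * w + 2 * D * e) (by
    rw [← hr]
    set q := 2 ^ (12 + 2 * u + 2 * w + 2 * D * e) with hqd
    have h1 : 1 ≤ q := Nat.one_le_two_pow
    calc 2 * r * q + 2 ≤ 2 * r * q + 2 * q := by omega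
      _ = 2 * (r + 1) * q := by ring
      _ ≤ 2 * 2 ^ u * q := Nat.mul_le_mul_right _ (Nat.mul_le_mul_left _ hru)
      _ = 2 ^ (13 + 3 * u + 2 * w + 2 * D * e) := by
          rw [hqd, ← pow_succ', ← pow_add]
          congr 1
          ring)
  refine ⟨_, hP, ?_⟩
  rw [← hr]
  have hcl : Nat.clog 2 r ≤ u := Nat.clog_mono_right 2 (Nat.le_succ r)
  have hul : (u : ℝ) ≤ L := by
    have h1 : u ≤ Nat.log 2 r + 1 :=
      Nat.clog_le_of_le_pow (Nat.lt_pow_succ_log_self (by norm_num) r)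
    have h2 := log_le r
    have h3 : (u : ℝ) ≤ (Nat.log 2 r : ℝ) + 1 := by exact_mod_cast h1
    linarith
  have hwl : (w : ℝ) ≤ M + 1 := by
    have := clog_le (m + 1)
    push_cast at this
    exact this
  rcases Nat.eq_zero_or_pos r with h0 | h0
  · have : Nat.clog 2 r = 0 := by rw [h0]; rfl
    rw [this]
    push_cast
    nlinarith
  · have hu1 : 1 ≤ u := Nat.clog_pos (by norm_num) (by omega)
    have h4 : 2 * (13 + 3 * u + 2 * w + 2 * D * e) * Nat.clog 2 r + 2 ≤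
        44 * (D + 1) * u * (u + w) := by
      have h5 : 13 + 3 * u + 2 * w + 2 * D * e ≤ 16 * (u + w) + 22 * D * (u + w) := by
        have e1 : 2 * D * e ≤ 2 * D * (11 * (u + w)) := Nat.mul_le_mul_left _ (by omega)
        have e2 : 2 * D * (11 * (u + w)) = 22 * D * (u + w) := by ring
        omega
      calc 2 * (13 + 3 * u + 2 * w + 2 * D * e) * Nat.clog 2 r + 2
          ≤ 2 * (16 * (u + w) + 22 * D * (u + w)) * u + 2 * (u * (u + w)) := by
            refine Nat.add_le_add (Nat.mul_le_mul (Nat.mul_le_mul_left _ h5) hcl) ?_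
            have : 1 ≤ u * (u + w) := Nat.mul_pos hu1 (by omega)
            omega
        _ = (34 + 44 * D) * (u * (u + w)) := by ring
        _ ≤ (44 + 44 * D) * (u * (u + w)) := Nat.mul_le_mul_right _ (by omega)
        _ = 44 * (D + 1) * u * (u + w) := by ring
    have h5 : ((2 * (13 + 3 * u + 2 * w + 2 * D * e) * Nat.clog 2 r + 2 : ℕ) : ℝ) ≤
        44 * ((D : ℝ) + 1) * u * (u + w) := by exact_mod_cast h4
    refine h5.trans ?_
    have h6 : (u : ℝ) * (u + w) ≤ L * (L + (M + 1)) :=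
      mul_le_mul hul (add_le_add hul hwl) (by positivity) (by linarith)
    have h7 : L * (L + (M + 1)) ≤ 2 * (L * (L + M)) := by nlinarith
    have h8 : 44 * ((D : ℝ) + 1) * (u * (u + w)) ≤ 44 * ((D : ℝ) + 1) * (2 * (L * (L + M))) :=
      mul_le_mul_of_nonneg_left (h6.trans h7) (by positivity)
    calc 44 * ((D : ℝ) + 1) * u * (u + w) = 44 * ((D : ℝ) + 1) * (u * (u + w)) := by ring
      _ ≤ _ := h8
      _ = _ := by ring

theorem proto_not {X Y : Type*} {F : X → Y → Bool} {b : ℕ} (h : Proto (fun x y => !F x y) b) :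
    Proto F b := by
  obtain ⟨owner, a, b, out, hout⟩ := h
  exact ⟨owner, a, b, fun t => !out t, fun x y => by
    show (!out _) = _
    rw [hout]
    simp⟩

/-- The same with real weights. -/
theorem proto_frac_real {X Y ι : Type*} [Fintype X] [Fintype Y] [Fintype ι] (F : X → Y → Bool)
    (t : ℝ) (ht : 1 ≤ t) (D : ℕ) (h : ι → X → Y → Bool) (hG : ∀ j, Growth (h j) D) (p : ι → ℝ)
    (hp : ∀ j, 0 ≤ p j) (hp1 : ∑ j, p j ≤ 1) (hF1 : ∀ x y, F x y = true → ∀ j, h j x y = true)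
    (hF0 : ∀ x y, F x y = false → 1 ≤ t * ∑ j, if h j x y = false then p j else 0) :
    ∃ b, Proto F b ∧ (b : ℝ) ≤ 264 * ((D : ℝ) + 1) * (Real.logb 2 ((comm F).rank : ℝ) + 1) *
      (Real.logb 2 ((comm F).rank : ℝ) + 1 + Real.logb 2 t) := by
  obtain ⟨b, hb, hle⟩ := proto_frac F ⌈t⌉₊ D h hG p hp hp1 hF1 (fun x y hxy => by
    refine (hF0 x y hxy).trans (mul_le_mul_of_nonneg_right (Nat.le_ceil t) ?_)
    refine sum_nonneg fun j _ => ?_
    split_ifs
    · exact hp j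
    · exact le_rfl)
  refine ⟨b, hb, hle.trans ?_⟩
  set L := Real.logb 2 ((comm F).rank : ℝ) + 1 with hL
  have hL1 : 1 ≤ L := by
    have := logb_nonneg (comm F).rank
    linarith
  have ht0 : 0 ≤ Real.logb 2 t := Real.logb_nonneg (by norm_num) ht
  have h1 : Real.logb 2 ((⌈t⌉₊ : ℝ) + 1) ≤ 2 * L + Real.logb 2 t := by
    have h2 : (⌈t⌉₊ : ℝ) < t + 1 := Nat.ceil_lt_add_one (by linarith)
    have h3 : Real.logb 2 ((⌈t⌉₊ : ℝ) + 1) ≤ Real.logb 2 (4 * t) :=
      Real.logb_le_logb_of_le (by norm_num) (by positivity) (by linarith)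
    have h4 : Real.logb 2 4 = 2 := by
      rw [show (4 : ℝ) = 2 ^ (2 : ℕ) by norm_num, Real.logb_pow,
        Real.logb_self_eq_one (by norm_num)]
      norm_num
    rw [Real.logb_mul (by norm_num) (by linarith), h4] at h3
    linarith
  have hD0 : (0 : ℝ) ≤ D := Nat.cast_nonneg _
  have h5 : L + Real.logb 2 ((⌈t⌉₊ : ℝ) + 1) ≤ 3 * (L + Real.logb 2 t) := by linarith
  calc 88 * ((D : ℝ) + 1) * L * (L + Real.logb 2 ((⌈t⌉₊ : ℝ) + 1)) ≤
      88 * ((D : ℝ) + 1) * L * (3 * (L + Real.logb 2 t)) :=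
        mul_le_mul_of_nonneg_left h5 (by positivity)
    _ = 264 * ((D : ℝ) + 1) * L * (L + Real.logb 2 t) := by ring

/-- A conjunction of `m` functions of growth `D`. -/
theorem proto_conj {X Y : Type*} [Fintype X] [Fintype Y] (F : X → Y → Bool) (m D : ℕ)
    (h : Fin m → X → Y → Bool) (hG : ∀ j, Growth (h j) D)
    (hF : ∀ x y, F x y = true ↔ ∀ j, h j x y = true) :
    ∃ b, Proto F b ∧ (b : ℝ) ≤ 88 * ((D : ℝ) + 1) * (Real.logb 2 ((comm F).rank : ℝ) + 1) *
      (Real.logb 2 ((comm F).rank : ℝ) + 1 + Real.logb 2 ((m : ℝ) + 1)) := by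
  classical
  refine proto_frac F m D h hG (fun _ => 1 / (m : ℝ)) (fun _ => by positivity) ?_
    (fun x y hxy => (hF x y).mp hxy) ?_
  · rw [sum_const, card_univ, Fintype.card_fin, nsmul_eq_mul]
    rcases Nat.eq_zero_or_pos m with h0 | h0
    · rw [h0]
      norm_num
    · have : (m : ℝ) ≠ 0 := by exact_mod_cast h0.ne'
      rw [mul_one_div_cancel this]
  · intro x y hxy
    have h1 : ¬ ∀ j, h j x y = true := fun hh => by
      rw [(hF x y).mpr hh] at hxy
      exact Bool.noConfusion hxy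
    push Not at h1
    obtain ⟨j, hj⟩ := h1
    have hm : (m : ℝ) ≠ 0 := by
      have := j.pos
      exact_mod_cast this.ne'
    have h2 : 1 / (m : ℝ) ≤ ∑ j, if h j x y = false then 1 / (m : ℝ) else 0 := by
      have h3 := single_le_sum (f := fun j => if h j x y = false then 1 / (m : ℝ) else 0)
        (fun i _ => by
          show (0 : ℝ) ≤ if h i x y = false then 1 / (m : ℝ) else 0
          split_ifs <;> positivity) (mem_univ j)
      have h4 : h j x y = false := by simpa using hj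
      simpa [h4] using h3
    calc (1 : ℝ) = m * (1 / m) := (mul_one_div_cancel hm).symm
      _ ≤ _ := mul_le_mul_of_nonneg_left h2 (Nat.cast_nonneg _)

end Pool.Agent.H72.LD
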