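import Pool.Graph.R_seed8.R533.VC.Main

/-!
Conjunctions of many Boolean matrices of small VC dimension: all submatrices contain large
monochromatic rectangles.
-/

set_option autoImplicit false

namespace Pool.Agent.H72.LD

open Finset Pool.Agent.H630R2.LR Pool.Agent.R533.VC

/-- The average argument. -/
theorem exists_of_weights {ι : Type*} [Fintype ι] (p v : ι → ℝ) (hp : ∀ i, 0 ≤ p i)
    (hp1 : ∑ i, p i ≤ 1) (V : ℝ) (hV : 0 < V) (h : V ≤ ∑ i, p i * v i) : ∃ i, V ≤ v i := by
  by_contra hcon
  push Not at hcon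
  rcases isEmpty_or_nonempty ι with he | he
  · rw [univ_eq_empty, sum_empty] at h
    linarith
  obtain ⟨i₀, _, hi₀⟩ := exists_max_image univ v (univ_nonempty)
  have h1 : ∑ i, p i * v i ≤ ∑ i, p i * v i₀ :=
    sum_le_sum fun i _ => mul_le_mul_of_nonneg_left (hi₀ i (mem_univ _)) (hp i)
  rw [← sum_mul] at h1
  rcases le_total (v i₀) 0 with h2 | h2
  · have h3 : (∑ i, p i) * v i₀ ≤ 0 :=
      mul_nonpos_of_nonneg_of_nonpos (sum_nonneg fun i _ => hp i) h2
    linarith
  · have h3 : (∑ i, p i) * v i₀ ≤ 1 * v i₀ := mul_le_mul_of_nonneg_right hp1 h2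
    have h4 := hcon i₀
    linarith

/-- In every rectangle, a fractional conjunction of functions of growth `D` has a monochromatic
rectangle of relative size polynomial in `1 / (r m)`. -/
theorem rich_frac {X Y ι : Type*} [Fintype X] [Fintype Y] [Fintype ι] (F : X → Y → Bool)
    (m D : ℕ) (h : ι → X → Y → Bool) (hG : ∀ j, Growth (h j) D) (p : ι → ℝ) (hp : ∀ j, 0 ≤ p j)
    (hp1 : ∑ j, p j ≤ 1) (hF1 : ∀ x y, F x y = true → ∀ j, h j x y = true)
    (hF0 : ∀ x y, F x y = false → 1 ≤ m * ∑ j, if h j x y = false then p j else 0)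
    (r : ℕ) (hr : (comm F).rank ≤ r)
    (s t : ℕ) (hs : 128 * (r + 1) ^ 2 * m ≤ 2 ^ s) (ht : 2 * D ≤ 2 ^ t) :
    Rich F (4 + 32 * (4 * (r + 1) * m) ^ 2 * 2 ^ (2 * D * (s + t) + 2)) := by
  classical
  intro A B hA hB
  have hApos := hA.card_pos
  have hBpos := hB.card_pos
  by_cases hcase : 4 * (r + 1) * (∑ x ∈ A, (B.filter (fun y => F x y ≠ true)).card) ≤
      A.card * B.card
  · obtain ⟨A', hA', B', hB', hval, hc⟩ := few_errors F A B hB true r ((rk_le F _ _).trans hr) hcase
    refine ⟨A', hA', B', hB', true, hval, hc.trans ?_⟩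
    exact Nat.mul_le_mul_right _ (Nat.le_add_right _ _)
  push Not at hcase
  -- the zeros of one of the functions
  let z : ι → Y → ℕ := fun j y => (A.filter (fun x => h j x y = false)).card
  set Z := ∑ x ∈ A, (B.filter (fun y => F x y ≠ true)).card with hZdef
  have hZpos : 0 < Z := by
    rcases Nat.eq_zero_or_pos Z with h0 | h0
    · rw [h0] at hcase
      omega
    · exact h0
  have hZj : ∃ j, Z ≤ m * ∑ y ∈ B, z j y := by
    have h1 : (Z : ℝ) ≤ ∑ j, p j * ((m * ∑ y ∈ B, z j y : ℕ) : ℝ) := by
      have e1 : (Z : ℝ) = ∑ x ∈ A, ∑ y ∈ B, if F x y ≠ true then (1 : ℝ) else 0 := by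
        rw [hZdef]
        push_cast
        refine sum_congr rfl fun x _ => ?_
        rw [card_filter]
        push_cast
        rfl
      have e2 : ∀ j, ((m * ∑ y ∈ B, z j y : ℕ) : ℝ) =
          m * ∑ x ∈ A, ∑ y ∈ B, if h j x y = false then (1 : ℝ) else 0 := by
        intro j
        rw [sum_comm]
        push_cast
        congr 1
        refine sum_congr rfl fun y _ => ?_
        show ((A.filter (fun x => h j x y = false)).card : ℝ) = _
        rw [card_filter]
        push_cast
        rfl
      have e3 : ∑ j, p j * ((m * ∑ y ∈ B, z j y : ℕ) : ℝ) =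
          ∑ x ∈ A, ∑ y ∈ B, m * ∑ j, if h j x y = false then p j else 0 := by
        have e4 : ∀ j, p j * ((m * ∑ y ∈ B, z j y : ℕ) : ℝ) =
            ∑ x ∈ A, ∑ y ∈ B, m * (if h j x y = false then p j else 0) := by
          intro j
          rw [e2 j, mul_sum, mul_sum]
          refine sum_congr rfl fun x _ => ?_
          rw [mul_sum, mul_sum]
          refine sum_congr rfl fun y _ => ?_
          split_ifs <;> ring
        rw [sum_congr rfl fun j _ => e4 j, sum_comm]
        refine sum_congr rfl fun x _ => ?_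
        rw [sum_comm]
        refine sum_congr rfl fun y _ => ?_
        rw [mul_sum]
      rw [e1, e3]
      refine sum_le_sum fun x _ => sum_le_sum fun y _ => ?_
      split_ifs with hxy
      · exact hF0 x y (by simpa using hxy)
      · exact mul_nonneg (Nat.cast_nonneg _) (sum_nonneg fun j _ => by
          split_ifs
          · exact hp j
          · exact le_rfl)
    obtain ⟨j, hj⟩ := exists_of_weights p _ hp hp1 (Z : ℝ) (by exact_mod_cast hZpos) h1
    exact ⟨j, by exact_mod_cast hj⟩
  obtain ⟨j, hZj⟩ := hZj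
  have hj : A.card * B.card < 4 * (r + 1) * m * ∑ y ∈ B, z j y := by
    have h4 := Nat.mul_le_mul_left (4 * (r + 1)) hZj
    rw [← mul_assoc] at h4
    omega
  have hm : 0 < m := by
    rcases Nat.eq_zero_or_pos m with h0 | h0
    · rw [h0] at hj
      omega
    · exact h0
  set E := 4 * (r + 1) * m with hE
  have hE1 : 1 ≤ E := Nat.mul_pos (by omega) hm
  -- the columns with many zeros
  set B1 := B.filter (fun y => A.card ≤ 2 * E * z j y) with hB1
  have hB1c : B.card < 2 * E * B1.card := by
    have h1 : 2 * (E * ∑ y ∈ B, z j y) ≤ 2 * E * (A.card * B1.card) + A.card * B.card := by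
      have h2 : ∀ y ∈ B, 2 * E * z j y ≤
          (if A.card ≤ 2 * E * z j y then 2 * E * A.card else 0) + A.card := by
        intro y _
        split_ifs with hc
        · have : z j y ≤ A.card := card_filter_le _ _
          have := Nat.mul_le_mul_left (2 * E) this
          omega
        · omega
      calc 2 * (E * ∑ y ∈ B, z j y) = ∑ y ∈ B, 2 * E * z j y := by rw [← mul_sum]; ring
        _ ≤ ∑ y ∈ B, ((if A.card ≤ 2 * E * z j y then 2 * E * A.card else 0) + A.card) :=
            sum_le_sum h2
        _ = B1.card * (2 * E * A.card) + B.card * A.card := by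
            rw [sum_add_distrib, ← sum_filter, sum_const, sum_const, smul_eq_mul, smul_eq_mul]
        _ = 2 * E * (A.card * B1.card) + A.card * B.card := by ring
    have h3 : A.card * B.card < A.card * (2 * E * B1.card) := by
      have h4 : 2 * E * (A.card * B1.card) = A.card * (2 * E * B1.card) := by ring
      omega
    exact Nat.lt_of_mul_lt_mul_left h3
  have hB1ne : B1.Nonempty := by
    rw [← card_pos]
    refine Nat.pos_of_ne_zero fun h0 => ?_
    rw [h0] at hB1c
    omega
  -- a cluster
  set e := 16 * (r + 1) * E with he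
  have he1 : 1 ≤ e := Nat.mul_pos (by omega) hE1
  obtain ⟨P, hsep, p, hp, B2, hB2, hclose, hcard⟩ := cluster (h j) A B1 hB1ne e
  have hPc := pack (h j) D (hG j) A hA P e he1 hsep s t (by
    refine le_trans (le_of_eq ?_) hs
    rw [he, hE]
    ring) ht
  have hB2ne : B2.Nonempty := by
    rw [nonempty_iff_ne_empty]
    intro h0
    rw [h0, card_empty, mul_zero] at hcard
    have := hB1ne.card_pos
    omega
  set Av := A.filter (fun x => h j x p = false) with hAv
  have hdif : ∀ y ∈ B2, z j y ≤ Av.card + dif (h j) A y p := by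
    intro y _
    refine le_trans (card_le_card ?_) (card_union_le _ _)
    intro x hx
    rw [mem_filter] at hx
    by_cases hxp : h j x p = false
    · exact mem_union_left _ (mem_filter.mpr ⟨hx.1, hxp⟩)
    · refine mem_union_right _ (mem_filter.mpr ⟨hx.1, ?_⟩)
      rw [hx.2]
      simpa using Ne.symm hxp
  have hAvc : A.card ≤ 4 * E * Av.card := by
    obtain ⟨y, hy⟩ := hB2ne
    have h1 := hdif y hy
    have h2 := (mem_filter.mp (hB2 hy)).2
    have h3 := hclose y hy
    have h4 : 4 * E * dif (h j) A y p ≤ A.card := by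
      refine le_trans (Nat.mul_le_mul_right _ ?_) h3
      rw [he]
      exact Nat.mul_le_mul_right _ (by omega)
    have h5 : 2 * E * z j y ≤ 2 * E * (Av.card + dif (h j) A y p) := Nat.mul_le_mul_left _ h1
    have h6 : 2 * (2 * E * (Av.card + dif (h j) A y p)) =
      4 * E * Av.card + 4 * E * dif (h j) A y p := by ring
    omega
  have herr : 4 * (r + 1) * (∑ x ∈ Av, (B2.filter (fun y => F x y ≠ false)).card) ≤
      Av.card * B2.card := by
    have h1 : (∑ x ∈ Av, (B2.filter (fun y => F x y ≠ false)).card) =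
        ∑ y ∈ B2, (Av.filter (fun x => F x y ≠ false)).card := by
      simp only [card_filter]
      exact sum_comm
    have h2 : ∀ y ∈ B2, 4 * (r + 1) * (Av.filter (fun x => F x y ≠ false)).card ≤ Av.card := by
      intro y hy
      have h3 : (Av.filter (fun x => F x y ≠ false)).card ≤ dif (h j) A y p := by
        refine card_le_card ?_
        intro x hx
        rw [mem_filter, hAv, mem_filter] at hx
        rw [mem_filter]
        refine ⟨hx.1.1, ?_⟩
        have h4 : F x y = true := by simpa using hx.2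
        rw [hx.1.2, hF1 x y h4 j]
        simp
      have h5 := hclose y hy
      have h6 : 4 * E * (4 * (r + 1) * (Av.filter (fun x => F x y ≠ false)).card) ≤
          4 * E * Av.card := by
        calc 4 * E * (4 * (r + 1) * (Av.filter (fun x => F x y ≠ false)).card)
            = e * (Av.filter (fun x => F x y ≠ false)).card := by rw [he]; ring
          _ ≤ e * dif (h j) A y p := Nat.mul_le_mul_left _ h3
          _ ≤ A.card := h5
          _ ≤ _ := hAvc
      exact Nat.le_of_mul_le_mul_left h6 (by omega)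
    rw [h1, mul_sum]
    calc ∑ y ∈ B2, 4 * (r + 1) * (Av.filter (fun x => F x y ≠ false)).card
        ≤ ∑ _y ∈ B2, Av.card := sum_le_sum h2
      _ = Av.card * B2.card := by rw [sum_const, smul_eq_mul, mul_comm]
  obtain ⟨A', hA', B', hB', hval, hc⟩ :=
    few_errors F Av B2 hB2ne false r ((rk_le F _ _).trans hr) herr
  refine ⟨A', hA'.trans (filter_subset _ _), B', (hB'.trans hB2).trans (filter_subset _ _), false,
    hval, ?_⟩
  calc A.card * B.card ≤ (4 * E * Av.card) * (2 * E * B1.card) :=
        Nat.mul_le_mul hAvc hB1c.le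
    _ ≤ (4 * E * Av.card) * (2 * E * (P.card * B2.card)) :=
        Nat.mul_le_mul_left _ (Nat.mul_le_mul_left _ hcard)
    _ = 8 * E ^ 2 * P.card * (Av.card * B2.card) := by ring
    _ ≤ 8 * E ^ 2 * P.card * (4 * (A'.card * B'.card)) := Nat.mul_le_mul_left _ hc
    _ = 32 * E ^ 2 * P.card * (A'.card * B'.card) := by ring
    _ ≤ 32 * E ^ 2 * 2 ^ (2 * D * (s + t) + 2) * (A'.card * B'.card) :=
        Nat.mul_le_mul_right _ (Nat.mul_le_mul_left _ hPc)
    _ ≤ (4 + 32 * E ^ 2 * 2 ^ (2 * D * (s + t) + 2)) * (A'.card * B'.card) :=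
        Nat.mul_le_mul_right _ (Nat.le_add_left _ _)

end Pool.Agent.H72.LD
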