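import Pool.Agent.H72.LD.Local

set_option autoImplicit false

namespace Pool.Agent.H72.LD

open Finset Pool.Agent.H630R2.LR Pool.Agent.R533.VC

/-- The statement of Q1, as in S15531. -/
def LogRank : Prop :=
    ∃ C k : ℕ, ∀ n : ℕ, ∀ F : (Fin n → ZMod 2) → (Fin n → ZMod 2) → Bool,
      ∃ c : ℕ, ∃ owner : List Bool → Bool,
        ∃ a : List Bool → (Fin n → ZMod 2) → Bool,
        ∃ b : List Bool → (Fin n → ZMod 2) → Bool,
        ∃ out : List Bool → Bool,
          (∀ x y : Fin n → ZMod 2,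
            out (Nat.iterate
              (fun t : List Bool => t ++ [if owner t then a t x else b t y]) c []) = F x y) ∧
          (c : ℝ) ≤ (C : ℝ) * (Real.logb 2
              ((Matrix.of (fun x y : Fin n → ZMod 2 => if F x y then (1 : ℝ) else 0)).rank : ℝ)) ^ k
            + (C : ℝ)

theorem logb_mono (a b : ℕ) (h : a ≤ b) : Real.logb 2 (a : ℝ) ≤ Real.logb 2 (b : ℝ) := by
  rcases Nat.eq_zero_or_pos a with h0 | h0
  · rw [h0, Nat.cast_zero, Real.logb_zero]
    exact logb_nonneg b
  · exact Real.logb_le_logb_of_le (by norm_num) (by exact_mod_cast h0) (by exact_mod_cast h)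

theorem exists_retract (X : Type) [Fintype X] [Nonempty X] (n : ℕ) (h : Fintype.card X ≤ 2 ^ n) :
    ∃ (f : (Fin n → ZMod 2) → X) (e : X → (Fin n → ZMod 2)), ∀ x, f (e x) = x := by
  classical
  have hc : Fintype.card X ≤ Fintype.card (Fin n → ZMod 2) := by
    rw [Fintype.card_fun, ZMod.card, Fintype.card_fin]
    exact h
  obtain ⟨e⟩ := Function.Embedding.nonempty_of_card_le hc
  exact ⟨Function.invFun e, e, Function.leftInverse_invFun e.injective⟩

/-- The conjecture for all finite sets. -/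
theorem LogRank.general (h : LogRank) : ∃ C k : ℕ, ∀ (X Y : Type) [Fintype X] [Fintype Y]
    (F : X → Y → Bool), ∃ c : ℕ, Proto F c ∧
      (c : ℝ) ≤ C * (Real.logb 2 ((comm F).rank : ℝ)) ^ k + C := by
  classical
  obtain ⟨C, k, h⟩ := h
  refine ⟨C, k, ?_⟩
  intro X Y _ _ F
  have htriv : (IsEmpty X ∨ IsEmpty Y) → ∃ c : ℕ, Proto F c ∧
      (c : ℝ) ≤ C * (Real.logb 2 ((comm F).rank : ℝ)) ^ k + C := by
    intro he
    refine ⟨0, Proto.const F true (fun x y => ?_), ?_⟩
    · rcases he with he | he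
      · exact he.elim x
      · exact he.elim y
    · have := logb_nonneg (comm F).rank
      push_cast
      positivity
  rcases isEmpty_or_nonempty X with hX | hX
  · exact htriv (Or.inl hX)
  rcases isEmpty_or_nonempty Y with hY | hY
  · exact htriv (Or.inr hY)
  obtain ⟨n, hnX, hnY⟩ : ∃ n, Fintype.card X ≤ 2 ^ n ∧ Fintype.card Y ≤ 2 ^ n :=
    ⟨Fintype.card X + Fintype.card Y,
      (Nat.lt_two_pow_self).le.trans (Nat.pow_le_pow_right (by norm_num) (Nat.le_add_right _ _)),
      (Nat.lt_two_pow_self).le.trans (Nat.pow_le_pow_right (by norm_num) (Nat.le_add_left _ _))⟩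
  obtain ⟨f, e, hfe⟩ := exists_retract X n hnX
  obtain ⟨g, e', hge⟩ := exists_retract Y n hnY
  obtain ⟨c, owner, a, b, out, hout, hc⟩ := h n (fun u w => F (f u) (g w))
  refine ⟨c, ?_, hc.trans ?_⟩
  · have h1 : Proto (fun u w => F (f u) (g w)) c := ⟨owner, a, b, out, hout⟩
    have h2 := Proto.comap h1 e e'
    have h3 : (fun (x : X) (y : Y) => F (f (e x)) (g (e' y))) = F := by
      funext x y
      rw [hfe, hge]
    exact h3 ▸ h2
  · have hrk : (Matrix.of (fun u w : Fin n → ZMod 2 =>
        if F (f u) (g w) then (1 : ℝ) else 0)).rank ≤ (comm F).rank := by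
      have : Matrix.of (fun u w : Fin n → ZMod 2 => if F (f u) (g w) then (1 : ℝ) else 0) =
          (comm F).submatrix f g := rfl
      rw [this]
      exact Matrix.rank_submatrix_le _ _ _
    have h1 := logb_mono _ _ hrk
    have h0 := logb_nonneg (Matrix.of (fun u w : Fin n → ZMod 2 =>
      if F (f u) (g w) then (1 : ℝ) else 0)).rank
    exact add_le_add (mul_le_mul_of_nonneg_left (pow_le_pow_left₀ h0 h1 k)
      (Nat.cast_nonneg _)) le_rfl

theorem poly_bound (A B e k : ℕ) (l v : ℝ) (hl : 0 ≤ l)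
    (hv : v ≤ A * (l + 1) ^ e * (l + 1 + (B * l ^ k + B))) :
    v ≤ ((A * (1 + 2 * B) * 2 ^ (e + k) : ℕ) : ℝ) * l ^ (e + k + 1) +
      ((A * (1 + 2 * B) * 2 ^ (e + k) : ℕ) : ℝ) := by
  have hz1 : (1 : ℝ) ≤ l + 1 := by linarith
  have hlk : l ^ k ≤ (l + 1) ^ k := pow_le_pow_left₀ hl (by linarith) k
  have h1k : (1 : ℝ) ≤ (l + 1) ^ k := one_le_pow₀ hz1
  have hA : (0 : ℝ) ≤ A := Nat.cast_nonneg _
  have hB : (0 : ℝ) ≤ B := Nat.cast_nonneg _
  have hkk : (l + 1) ^ k ≤ (l + 1) ^ (k + 1) := pow_le_pow_right₀ hz1 (by omega)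
  have hk1 : l + 1 ≤ (l + 1) ^ (k + 1) := by
    calc l + 1 = (l + 1) ^ 1 := (pow_one _).symm
      _ ≤ _ := pow_le_pow_right₀ hz1 (by omega)
  have h1 : l + 1 + (B * l ^ k + B) ≤ (1 + 2 * B) * (l + 1) ^ (k + 1) := by
    have e1 : (B : ℝ) * l ^ k ≤ B * (l + 1) ^ (k + 1) := mul_le_mul_of_nonneg_left (hlk.trans hkk) hB
    have e2 : (B : ℝ) ≤ B * (l + 1) ^ (k + 1) := le_mul_of_one_le_right hB (h1k.trans hkk)
    nlinarith
  have h2 : v ≤ A * (1 + 2 * B) * (l + 1) ^ (e + k + 1) := by
    refine hv.trans ((mul_le_mul_of_nonneg_left h1 (by positivity)).trans (le_of_eq ?_))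
    rw [show e + k + 1 = e + (k + 1) by ring, pow_add _ e (k + 1)]
    ring
  have h3 : (l + 1) ^ (e + k + 1) ≤ 2 ^ (e + k) * (l ^ (e + k + 1) + 1) := by
    have := add_pow_le hl zero_le_one (e + k + 1)
    simpa using this
  refine h2.trans ((mul_le_mul_of_nonneg_left h3 (by positivity)).trans (le_of_eq ?_))
  push_cast
  ring

/-! ### Partially ordered sets of height two -/

/-- The set `X ⊕ Y`, ordered by `x < y` if `F x y`. -/
def Two {X Y : Type} (_F : X → Y → Bool) : Type := X ⊕ Y

instance {X Y : Type} [Fintype X] [Fintype Y] (F : X → Y → Bool) : Fintype (Two F) :=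
  inferInstanceAs (Fintype (X ⊕ Y))

/-- The comparable pairs. -/
def twoRel {X Y : Type} (F : X → Y → Bool) (a b : X ⊕ Y) : Prop :=
  ∃ x y, a = Sum.inl x ∧ b = Sum.inr y ∧ F x y = true

theorem twoRel_trans {X Y : Type} (F : X → Y → Bool) (a b c : X ⊕ Y) (h : twoRel F a b)
    (h' : twoRel F b c) : False := by
  obtain ⟨x, y, -, h2, -⟩ := h
  obtain ⟨x', y', h3, -, -⟩ := h'
  rw [h2] at h3
  exact Sum.inr_ne_inl h3

instance {X Y : Type} (F : X → Y → Bool) : PartialOrder (Two F) where
  le a b := a = b ∨ twoRel F a b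
  le_refl a := Or.inl rfl
  le_trans a b c h h' := by
    rcases h with rfl | h
    · exact h'
    · rcases h' with rfl | h'
      · exact Or.inr h
      · exact (twoRel_trans F a b c h h').elim
  le_antisymm a b h h' := by
    rcases h with h | h
    · exact h
    · rcases h' with h' | h'
      · exact h'.symm
      · exact (twoRel_trans F a b a h h').elim

theorem two_lt {X Y : Type} (F : X → Y → Bool) (a b : Two F) : a < b ↔ twoRel F a b := by
  rw [lt_iff_le_and_ne]
  constructor
  · rintro ⟨h | h, hne⟩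
    · exact absurd h hne
    · exact h
  · intro h
    refine ⟨Or.inr h, ?_⟩
    rintro rfl
    exact twoRel_trans F a a a h h

theorem two_height {X Y : Type} (F : X → Y → Bool) (a b c : Two F) (h : a < b) : ¬ b < c :=
  fun h' => twoRel_trans F a b c ((two_lt F a b).mp h) ((two_lt F b c).mp h')

theorem below_two {X Y : Type} (F : X → Y → Bool) (x : X) (y : Y) :
    below (Two F) (Sum.inl x : X ⊕ Y) (Sum.inr y : X ⊕ Y) = F x y := by
  rw [Bool.eq_iff_iff, below_true, two_lt]
  constructor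
  · rintro ⟨x', y', h1, h2, h3⟩
    rw [Sum.inl_injective h1, Sum.inr_injective h2]
    exact h3
  · intro h
    exact ⟨x, y, rfl, rfl, h⟩

/-- A matrix which is `M` up to rows and columns of zeros. -/
theorem rank_extend {X Y P : Type} [Fintype X] [Fintype Y] [Fintype P] (M : Matrix X Y ℝ)
    (N : Matrix P P ℝ) (f : X → P) (g : Y → P) (hf : Function.Injective f)
    (hg : Function.Injective g) (h1 : ∀ x y, N (f x) (g y) = M x y)
    (h2 : ∀ a b, N a b ≠ 0 → (∃ x, f x = a) ∧ ∃ y, g y = b) : N.rank ≤ M.rank := by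
  classical
  let U : Matrix P X ℝ := Matrix.of fun a x => if f x = a then 1 else 0
  let W : Matrix Y P ℝ := Matrix.of fun y b => if g y = b then 1 else 0
  have e : N = U * M * W := by
    ext a b
    rw [Matrix.mul_apply]
    simp only [Matrix.mul_apply]
    by_cases hN : N a b = 0
    · rw [hN]
      symm
      refine sum_eq_zero fun y _ => ?_
      by_cases hy : g y = b
      · have : ∑ x, U a x * M x y = 0 := by
          refine sum_eq_zero fun x _ => ?_
          by_cases hx : f x = a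
          · rw [← h1 x y, hx, hy, hN, mul_zero]
          · show (if f x = a then (1 : ℝ) else 0) * M x y = 0
            rw [if_neg hx, zero_mul]
        rw [this, zero_mul]
      · show _ * (if g y = b then (1 : ℝ) else 0) = 0
        rw [if_neg hy, mul_zero]
    · obtain ⟨⟨x, rfl⟩, y, rfl⟩ := h2 a b hN
      rw [sum_eq_single y, sum_eq_single x]
      · show _ = (if f x = f x then (1 : ℝ) else 0) * M x y * (if g y = g y then (1 : ℝ) else 0)
        rw [if_pos rfl, if_pos rfl, h1]
        ring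
      · intro x' _ hx'
        show (if f x' = f x then (1 : ℝ) else 0) * _ = 0
        rw [if_neg (fun hh => hx' (hf hh)), zero_mul]
      · intro hx'
        exact absurd (mem_univ _) hx'
      · intro y' _ hy'
        show _ * (if g y' = g y then (1 : ℝ) else 0) = 0
        rw [if_neg (fun hh => hy' (hg hh)), mul_zero]
      · intro hy'
        exact absurd (mem_univ _) hy'
  rw [e]
  exact (Matrix.rank_mul_le_left _ _).trans (Matrix.rank_mul_le_right _ _)

theorem rank_two {X Y : Type} [Fintype X] [Fintype Y] (F : X → Y → Bool) :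
    (comm (below (Two F))).rank ≤ (comm F).rank := by
  refine rank_extend (comm F) (comm (below (Two F))) (P := X ⊕ Y) Sum.inl Sum.inr
    Sum.inl_injective Sum.inr_injective ?_ ?_
  · intro x y
    show (if below (Two F) (Sum.inl x : X ⊕ Y) (Sum.inr y : X ⊕ Y) then (1 : ℝ) else 0) =
      if F x y then 1 else 0
    rw [below_two]
  · intro a b hab
    have h1 : below (Two F) a b = true := by
      by_contra hcon
      refine hab ?_
      show (if below (Two F) a b then (1 : ℝ) else 0) = 0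
      rw [if_neg hcon]
    rw [below_true, two_lt] at h1
    obtain ⟨x, y, hx, hy, -⟩ := h1
    exact ⟨⟨x, hx.symm⟩, y, hy.symm⟩

/-! ### The equivalences -/

/-- The order dimension is at most quasipolynomial in the rank. -/
def DimForm : Prop :=
  ∃ C k : ℕ, ∀ (P : Type) [Fintype P] [PartialOrder P], ∃ m : ℕ, Realizer P m ∧
    Real.logb 2 (m : ℝ) ≤ C * (Real.logb 2 ((comm (below P)).rank : ℝ)) ^ k + C

/-- The fractional local dimension of partially ordered sets of height at most two is at most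
quasipolynomial in the rank. -/
def LocalForm : Prop :=
  ∃ C k : ℕ, ∀ (P : Type) [Fintype P] [PartialOrder P], (∀ x y z : P, x < y → ¬ y < z) →
    ∃ t : ℝ, 1 ≤ t ∧ LocalRealizer P t ∧
      Real.logb 2 t ≤ C * (Real.logb 2 ((comm (below P)).rank : ℝ)) ^ k + C

theorem dimForm_of_logRank (h : LogRank) : DimForm := by
  obtain ⟨C, k, h⟩ := h.general
  refine ⟨C + 1, k, fun P _ _ => ?_⟩
  obtain ⟨c, hc, hle⟩ := h P P (below P)
  refine ⟨2 ^ (c + 1), realizer_of_proto P c hc, ?_⟩
  have h1 : Real.logb 2 ((2 ^ (c + 1) : ℕ) : ℝ) = (c : ℝ) + 1 := by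
    rw [Nat.cast_pow, Nat.cast_ofNat, Real.logb_pow, Real.logb_self_eq_one (by norm_num)]
    push_cast
    ring
  rw [h1]
  have h2 : (0 : ℝ) ≤ (Real.logb 2 ((comm (below P)).rank : ℝ)) ^ k :=
    pow_nonneg (logb_nonneg _) k
  push_cast
  linarith

theorem localForm_of_dimForm (h : DimForm) : LocalForm := by
  obtain ⟨C, k, h⟩ := h
  refine ⟨C, k, fun P _ _ _ => ?_⟩
  obtain ⟨m, hm, hle⟩ := h P
  refine ⟨max m 1, le_max_right _ _, LocalRealizer.of_realizer hm, ?_⟩
  rcases Nat.eq_zero_or_pos m with h0 | h0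
  · rw [h0, Nat.cast_zero, max_eq_right zero_le_one, Real.logb_one]
    rw [h0, Nat.cast_zero, Real.logb_zero] at hle
    exact hle
  · rw [max_eq_left (by exact_mod_cast h0)]
    exact hle

theorem logRank_of_localForm (h : LocalForm) : LogRank := by
  obtain ⟨C, k, h⟩ := h
  refine ⟨1056 * (1 + 2 * C) * 2 ^ (1 + k), 1 + k + 1, fun n F => ?_⟩
  obtain ⟨t, ht, hP, hle⟩ := h (Two F) (fun a b c => two_height F a b c)
  obtain ⟨b, hb, hbl⟩ := proto_local (Two F) t ht hP
  have hF : Proto F b := by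
    have h1 := Proto.comap hb (fun x => (Sum.inl x : (Fin n → ZMod 2) ⊕ (Fin n → ZMod 2)))
      (fun y => (Sum.inr y : (Fin n → ZMod 2) ⊕ (Fin n → ZMod 2)))
    have h2 : (fun (x y : Fin n → ZMod 2) => below (Two F)
        (Sum.inl x : (Fin n → ZMod 2) ⊕ (Fin n → ZMod 2))
        (Sum.inr y : (Fin n → ZMod 2) ⊕ (Fin n → ZMod 2))) = F := by
      funext x y
      exact below_two F x y
    exact h2 ▸ h1
  obtain ⟨owner, a, b', out, hout⟩ := hF
  refine ⟨b, owner, a, b', out, hout, ?_⟩
  have hr := logb_mono _ _ (rank_two F)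
  have h0 := logb_nonneg (comm (below (Two F))).rank
  set l' := Real.logb 2 ((comm (below (Two F))).rank : ℝ) with hl'
  have hcomm : (Matrix.of (fun x y : Fin n → ZMod 2 => if F x y then (1 : ℝ) else 0)) = comm F :=
    rfl
  rw [hcomm]
  set l := Real.logb 2 ((comm F).rank : ℝ) with hl
  refine poly_bound 1056 C 1 k l b (h0.trans hr) (hbl.trans ?_)
  have h1 : Real.logb 2 t ≤ C * l ^ k + C :=
    hle.trans (add_le_add (mul_le_mul_of_nonneg_left (pow_le_pow_left₀ h0 hr k)
      (Nat.cast_nonneg _)) le_rfl)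
  have ht0 : 0 ≤ Real.logb 2 t := Real.logb_nonneg (by norm_num) ht
  rw [pow_one]
  push_cast
  exact mul_le_mul (mul_le_mul_of_nonneg_left (by linarith) (by norm_num)) (by linarith)
    (by linarith) (by linarith)

end Pool.Agent.H72.LD
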