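import Pool.Agent.H72.LD.Order

set_option autoImplicit false

namespace Pool.Agent.H72.LD

open Finset Pool.Agent.H630R2.LR Pool.Agent.R533.VC

/-! ### The first element of a set in a random order -/

/-- `j` is the first element of `Q` in the order given by `σ` -/
def IsFirst {k : ℕ} (σ : Equiv.Perm (Fin k)) (Q : Finset (Fin k)) (j : Fin k) : Prop :=
  j ∈ Q ∧ ∀ i ∈ Q, σ j ≤ σ i

theorem IsFirst.unique {k : ℕ} {σ : Equiv.Perm (Fin k)} {Q : Finset (Fin k)} {i j : Fin k}
    (hi : IsFirst σ Q i) (hj : IsFirst σ Q j) : i = j :=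
  σ.injective (le_antisymm (hi.2 j hj.1) (hj.2 i hi.1))

theorem exists_isFirst {k : ℕ} (σ : Equiv.Perm (Fin k)) (Q : Finset (Fin k)) (hQ : Q.Nonempty) :
    ∃ j, IsFirst σ Q j := by
  obtain ⟨j, hj, h⟩ := exists_min_image Q (fun i => σ i) hQ
  exact ⟨j, hj, h⟩

theorem IsFirst.swap {k : ℕ} {σ : Equiv.Perm (Fin k)} {Q : Finset (Fin k)} {i j : Fin k}
    (hi : IsFirst σ Q i) (hj : j ∈ Q) : IsFirst (σ * Equiv.swap i j) Q j := by
  refine ⟨hj, fun q hq => ?_⟩
  rw [Equiv.Perm.mul_apply, Equiv.Perm.mul_apply, Equiv.swap_apply_right]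
  refine hi.2 _ ?_
  by_cases h1 : q = i
  · rw [h1, Equiv.swap_apply_left]
    exact hj
  · by_cases h2 : q = j
    · rw [h2, Equiv.swap_apply_right]
      exact hi.1
    · rw [Equiv.swap_apply_of_ne_of_ne h1 h2]
      exact hq

open Classical in
theorem isFirst_count {k : ℕ} (Q R : Finset (Fin k)) (hQ : Q.Nonempty) (hR : R ⊆ Q) :
    R.card * (univ : Finset (Equiv.Perm (Fin k))).card =
      Q.card * (univ.filter (fun σ : Equiv.Perm (Fin k) => ∃ j ∈ R, IsFirst σ Q j)).card := by
  let N : Fin k → Finset (Equiv.Perm (Fin k)) := fun j => univ.filter (fun σ => IsFirst σ Q j)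
  have hN : ∀ i ∈ Q, ∀ j ∈ Q, (N i).card = (N j).card := by
    intro i hi j hj
    refine card_bij (fun σ _ => σ * Equiv.swap i j) ?_ ?_ ?_
    · intro σ hσ
      rw [mem_filter] at hσ ⊢
      exact ⟨mem_univ _, hσ.2.swap hj⟩
    · intro σ _ τ _ h
      exact mul_right_cancel h
    · intro τ hτ
      rw [mem_filter] at hτ
      refine ⟨τ * Equiv.swap j i, ?_, ?_⟩
      · rw [mem_filter]
        exact ⟨mem_univ _, hτ.2.swap hi⟩
      · rw [Equiv.swap_comm j i, mul_assoc, Equiv.swap_mul_self, mul_one]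
  obtain ⟨j₀, hj₀⟩ := hQ
  have hdisj : ∀ T : Finset (Fin k), ((T : Set (Fin k))).PairwiseDisjoint N := by
    intro T i _ j _ hij
    rw [Function.onFun, disjoint_left]
    intro σ h1 h2
    rw [mem_filter] at h1 h2
    exact hij (h1.2.unique h2.2)
  have h1 : ∀ T ⊆ Q, (T.biUnion N).card = T.card * (N j₀).card := by
    intro T hT
    rw [card_biUnion (fun i hi j hj hij => hdisj T hi hj hij), sum_congr rfl fun i hi =>
      hN i (hT hi) j₀ hj₀, sum_const, smul_eq_mul]
  have h2 : Q.biUnion N = univ := by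
    refine eq_univ_of_forall fun σ => ?_
    obtain ⟨j, hj⟩ := exists_isFirst σ Q ⟨j₀, hj₀⟩
    exact mem_biUnion.mpr ⟨j, hj.1, mem_filter.mpr ⟨mem_univ _, hj⟩⟩
  have h3 : R.biUnion N = univ.filter (fun σ : Equiv.Perm (Fin k) => ∃ j ∈ R, IsFirst σ Q j) := by
    ext σ
    simp [N]
  rw [← h3, ← h2, h1 Q (Subset.refl _), h1 R hR]
  ring

/-! ### Local realizers -/

/-- equality of two labels and a comparison -/
theorem vc_local {X Y Q : Type*} [LinearOrder Q] {E : Type*} (e : X → E) (e' : Y → E)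
    (g : X → Q) (g' : Y → Q) (F : X → Y → Bool)
    (h : ∀ x y, F x y = false ↔ e x = e' y ∧ g' y ≤ g x) : VCdim F 1 := by
  refine vc_one _ ?_
  rintro x x' ⟨y₀, h1, h2⟩ ⟨y, h3, h4⟩ ⟨y', h5, h6⟩
  obtain ⟨a1, -⟩ := (h _ _).mp h1
  obtain ⟨a2, -⟩ := (h _ _).mp h2
  obtain ⟨b1, b2⟩ := (h _ _).mp h4
  obtain ⟨c1, c2⟩ := (h _ _).mp h5
  have d1 : ¬ g' y ≤ g x := by
    intro hh
    rw [(h x y).mpr ⟨a1.trans (a2.symm.trans b1), hh⟩] at h3
    exact Bool.noConfusion h3
  have d2 : ¬ g' y' ≤ g x' := by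
    intro hh
    rw [(h x' y').mpr ⟨a2.trans (a1.symm.trans c1), hh⟩] at h6
    exact Bool.noConfusion h6
  exact d1 ((b2.trans (not_le.mp d2).le).trans c2)

/-- `k` partial linear extensions, given by sets `S j` and injective increasing functions `f j` on
`S j`, such that every element lies in at most `t q` of them and `y < x` in at least `q` of them, if
not `x ≤ y`. So the fractional local dimension of `P` is at most `t`. -/
def LocalRealizer (P : Type*) [PartialOrder P] (t : ℝ) : Prop :=
  ∃ (k q : ℕ) (S : Fin k → Set P) (f : Fin k → P → ℤ), 1 ≤ q ∧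
    (∀ j, Set.InjOn (f j) (S j)) ∧ (∀ j, MonotoneOn (f j) (S j)) ∧
    (∀ x, (Nat.card {j // x ∈ S j} : ℝ) ≤ t * q) ∧
    ∀ x y : P, ¬ x ≤ y → q ≤ Nat.card {j // x ∈ S j ∧ y ∈ S j ∧ f j y < f j x}

theorem LocalRealizer.of_realizer {P : Type*} [PartialOrder P] {m : ℕ} (h : Realizer P m) :
    LocalRealizer P (max m 1) := by
  classical
  obtain ⟨f, hinj, hf⟩ := h
  refine ⟨m, 1, fun _ => Set.univ, f, le_rfl, fun j => (hinj j).injOn,
    fun j x _ y _ hxy => (hf x y).mp hxy j, fun x => ?_, fun x y hxy => ?_⟩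
  · have h1 : Nat.card {j : Fin m // x ∈ (Set.univ : Set P)} ≤ m := by
      simp
    have h2 : (Nat.card {j : Fin m // x ∈ (Set.univ : Set P)} : ℝ) ≤ m := by exact_mod_cast h1
    push_cast
    rw [mul_one]
    exact h2.trans (le_max_left _ _)
  · have h1 : ¬ ∀ j, f j x ≤ f j y := fun hh => hxy ((hf x y).mpr hh)
    push Not at h1
    obtain ⟨j, hj⟩ := h1
    have : Nonempty {j // x ∈ (Set.univ : Set P) ∧ y ∈ (Set.univ : Set P) ∧ f j y < f j x} :=
      ⟨⟨j, Set.mem_univ _, Set.mem_univ _, hj⟩⟩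
    exact Nat.card_pos

/-- The communication complexity of the strict order is bounded in terms of the fractional local
dimension and the rank. -/
theorem proto_local (P : Type*) [Fintype P] [PartialOrder P] (t : ℝ) (ht : 1 ≤ t)
    (h : LocalRealizer P t) :
    ∃ b, Proto (below P) b ∧ (b : ℝ) ≤ 1056 * (Real.logb 2 ((comm (below P)).rank : ℝ) + 1) *
      (Real.logb 2 ((comm (below P)).rank : ℝ) + 1 + Real.logb 2 t) := by
  classical
  obtain ⟨k, q, S, f, hq, hinj, hmono, hS, hf⟩ := h
  -- the extensions which contain `x`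
  let Sx : P → Finset (Fin k) := fun x => univ.filter (fun j => x ∈ S j)
  have hSx : ∀ x, (((Sx x).card : ℕ) : ℝ) ≤ t * q := by
    intro x
    refine le_trans (le_of_eq ?_) (hS x)
    rw [Nat.card_eq_fintype_card, Fintype.card_subtype]
  let R : P → P → Finset (Fin k) := fun x y => univ.filter (fun j => x ∈ S j ∧ y ∈ S j ∧ f j y < f j x)
  have hR : ∀ x y, ¬ x ≤ y → q ≤ (R x y).card := by
    intro x y hxy
    refine (hf x y hxy).trans (le_of_eq ?_)
    rw [Nat.card_eq_fintype_card, Fintype.card_subtype]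
  -- the labels
  let e : Equiv.Perm (Fin k) → P → Option (Fin k) := fun σ x =>
    if hx : ∃ j, IsFirst σ (Sx x) j then some hx.choose else none
  have he : ∀ σ x j, e σ x = some j ↔ IsFirst σ (Sx x) j := by
    intro σ x j
    by_cases hx : ∃ j, IsFirst σ (Sx x) j
    · have e1 : e σ x = some hx.choose := dif_pos hx
      rw [e1, Option.some_inj]
      constructor
      · intro hh
        rw [← hh]
        exact hx.choose_spec
      · intro hh
        exact hx.choose_spec.unique hh
    · have e1 : e σ x = none := dif_neg hx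
      rw [e1]
      constructor
      · intro hh
        exact (Option.some_ne_none _ hh.symm).elim
      · intro hh
        exact (hx ⟨j, hh⟩).elim
  let g : Equiv.Perm (Fin k) → P → ℤ := fun σ x => (e σ x).elim 0 (fun j => f j x)
  have hg : ∀ σ x j, e σ x = some j → g σ x = f j x := by
    intro σ x j hh
    show (e σ x).elim 0 (fun j => f j x) = f j x
    rw [hh]
    rfl
  let h : Equiv.Perm (Fin k) → P → P → Bool := fun σ x y => decide (¬ (e σ x = e σ y ∧ g σ y ≤ g σ x))
  have hh : ∀ σ x y, h σ x y = false ↔ e σ x = e σ y ∧ g σ y ≤ g σ x := by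
    intro σ x y
    show decide (¬ (e σ x = e σ y ∧ g σ y ≤ g σ x)) = false ↔ _
    rw [decide_eq_false_iff_not, not_not]
  have hvc : ∀ σ, VCdim (h σ) 1 := fun σ => vc_local (e σ) (e σ) (g σ) (g σ) (h σ) (hh σ)
  set M := (univ : Finset (Equiv.Perm (Fin k))).card with hM
  have hMpos : 0 < M := card_pos.mpr ⟨1, mem_univ _⟩
  have hM0 : (0 : ℝ) < M := by exact_mod_cast hMpos
  -- an element which is not in a partial linear extension
  have hne : ∀ σ x y, ¬ x ≤ y → ∃ j, e σ x = some j := by
    intro σ x y hxy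
    have h1 := hR x y hxy
    have h2 : (R x y).Nonempty := card_pos.mp (by omega)
    obtain ⟨j, hj⟩ := h2
    rw [mem_filter] at hj
    obtain ⟨i, hi⟩ := exists_isFirst σ (Sx x) ⟨j, mem_filter.mpr ⟨mem_univ _, hj.2.1⟩⟩
    exact ⟨i, (he σ x i).mpr hi⟩
  obtain ⟨b, hb, hle⟩ := proto_frac_real (below P) (2 * t) (by linarith) 1 h
    (fun σ => growth_of_vc _ _ (hvc σ)) (fun _ => 1 / (M : ℝ)) (fun _ => by positivity)
    (by rw [sum_const, nsmul_eq_mul, mul_one_div_cancel hM0.ne'])
    (by
      intro x y hxy σ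
      rw [below_true] at hxy
      rw [← Bool.not_eq_false, hh]
      rintro ⟨h1, h2⟩
      obtain ⟨j, hj⟩ := hne σ y x (not_le_of_gt hxy)
      have hj' : e σ x = some j := h1.trans hj
      rw [hg σ x j hj', hg σ y j hj] at h2
      have hx1 := ((he σ x j).mp hj').1
      have hy1 := ((he σ y j).mp hj).1
      rw [mem_filter] at hx1 hy1
      have h3 := hmono j hx1.2 hy1.2 hxy.le
      exact hxy.ne (hinj j hx1.2 hy1.2 (le_antisymm h3 h2)))
    (by
      intro x y hxy
      have hxy' : ¬ x < y := by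
        rw [← below_true, hxy]
        exact Bool.false_ne_true
      by_cases hxe : x = y
      · subst hxe
        have h1 : (∑ σ, if h σ x x = false then 1 / (M : ℝ) else 0) = 1 := by
          rw [sum_congr rfl fun σ _ => if_pos ((hh σ x x).mpr ⟨rfl, le_rfl⟩), sum_const,
            nsmul_eq_mul, mul_one_div_cancel hM0.ne']
        rw [h1]
        linarith
      · have hxle : ¬ x ≤ y := fun hh => hxy' (lt_of_le_of_ne hh hxe)
        set Q := Sx x ∪ Sx y with hQ
        have hRQ : R x y ⊆ Q := by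
          intro j hj
          rw [mem_filter] at hj
          exact mem_union_left _ (mem_filter.mpr ⟨mem_univ _, hj.2.1⟩)
        have hRc := hR x y hxle
        have hRne : (R x y).Nonempty := card_pos.mp (by omega)
        have hcount := isFirst_count Q (R x y) (hRne.mono hRQ) hRQ
        have hQc : (Q.card : ℝ) ≤ 2 * t * q := by
          have h1 : ((Sx x ∪ Sx y).card : ℝ) ≤ (Sx x).card + (Sx y).card := by
            exact_mod_cast card_union_le _ _
          have h2 := hSx x
          have h3 := hSx y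
          rw [hQ]
          linarith
        have hQ0 : (0 : ℝ) < Q.card := by exact_mod_cast (hRne.mono hRQ).card_pos
        set T := univ.filter (fun σ : Equiv.Perm (Fin k) => ∃ j ∈ R x y, IsFirst σ Q j) with hT
        have hTh : ∀ σ ∈ T, h σ x y = false := by
          intro σ hσ
          rw [mem_filter] at hσ
          obtain ⟨-, j, hjR, hj⟩ := hσ
          rw [mem_filter] at hjR
          have h1 : IsFirst σ (Sx x) j := ⟨mem_filter.mpr ⟨mem_univ _, hjR.2.1⟩, fun i hi =>
            hj.2 i (mem_union_left _ hi)⟩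
          have h2 : IsFirst σ (Sx y) j := ⟨mem_filter.mpr ⟨mem_univ _, hjR.2.2.1⟩, fun i hi =>
            hj.2 i (mem_union_right _ hi)⟩
          rw [hh, (he σ x j).mpr h1, (he σ y j).mpr h2, hg σ x j ((he σ x j).mpr h1),
            hg σ y j ((he σ y j).mpr h2)]
          exact ⟨rfl, hjR.2.2.2.le⟩
        have hsum : (T.card : ℝ) * (1 / M) ≤ ∑ σ, if h σ x y = false then 1 / (M : ℝ) else 0 := by
          calc (T.card : ℝ) * (1 / M) = ∑ σ ∈ T, 1 / (M : ℝ) := by
                rw [sum_const, nsmul_eq_mul]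
            _ = ∑ σ ∈ T, if h σ x y = false then 1 / (M : ℝ) else 0 :=
                sum_congr rfl fun σ hσ => (if_pos (hTh σ hσ)).symm
            _ ≤ _ := sum_le_sum_of_subset_of_nonneg (subset_univ _) fun σ _ _ => by
                split_ifs <;> positivity
        refine le_trans ?_ (mul_le_mul_of_nonneg_left hsum (by linarith))
        have h1 : ((R x y).card : ℝ) * M = Q.card * T.card := by exact_mod_cast hcount
        have h2 : (q : ℝ) ≤ (R x y).card := by exact_mod_cast hRc
        have h3 : (q : ℝ) * M ≤ 2 * t * q * T.card := by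
          calc (q : ℝ) * M ≤ (R x y).card * M := mul_le_mul_of_nonneg_right h2 hM0.le
            _ = Q.card * T.card := h1
            _ ≤ 2 * t * q * T.card := mul_le_mul_of_nonneg_right hQc (Nat.cast_nonneg _)
        have hq0 : (0 : ℝ) < q := by exact_mod_cast hq
        have h4 : (M : ℝ) ≤ 2 * t * T.card := by
          have h5 : (q : ℝ) * M ≤ q * (2 * t * T.card) := h3.trans (le_of_eq (by ring))
          exact le_of_mul_le_mul_left h5 hq0
        rw [mul_one_div, ← mul_div_assoc, le_div_iff₀ hM0, one_mul]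
        exact h4)
  refine ⟨b, hb, hle.trans ?_⟩
  set L := Real.logb 2 ((comm (below P)).rank : ℝ) + 1 with hL
  have hL1 : 1 ≤ L := by
    have := logb_nonneg (comm (below P)).rank
    linarith
  have ht0 : 0 ≤ Real.logb 2 t := Real.logb_nonneg (by norm_num) ht
  rw [Real.logb_mul (by norm_num) (by linarith), Real.logb_self_eq_one (by norm_num)]
  have h5 : L + (1 + Real.logb 2 t) ≤ 2 * (L + Real.logb 2 t) := by linarith
  calc 264 * (((1 : ℕ) : ℝ) + 1) * L * (L + (1 + Real.logb 2 t)) ≤
      264 * (((1 : ℕ) : ℝ) + 1) * L * (2 * (L + Real.logb 2 t)) :=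
        mul_le_mul_of_nonneg_left h5 (by positivity)
    _ = 1056 * L * (L + Real.logb 2 t) := by
      push_cast
      ring

end Pool.Agent.H72.LD
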