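import Pool.Agent.H72.LD.Bound
import Pool.Graph.R_seed8.R533.VC.Graph

set_option autoImplicit false

namespace Pool.Agent.H72.LD

open Finset Pool.Agent.H630R2.LR Pool.Agent.R533.VC

/-! ### Functions of VC dimension one -/

theorem vc_one {X Y : Type*} (F : X → Y → Bool)
    (h : ∀ x x', (∃ y, F x y = false ∧ F x' y = false) → (∃ y, F x y = true ∧ F x' y = false) →
      (∃ y, F x y = false ∧ F x' y = true) → False) : VCdim F 1 := by
  intro k x hS
  by_contra hk
  push Not at hk
  have key : ∀ a b : Bool, ∃ y, F (x ⟨0, by omega⟩) y = a ∧ F (x ⟨1, by omega⟩) y = b := by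
    intro a b
    obtain ⟨y, hy⟩ := hS (fun i => if i.1 = 0 then a else b)
    refine ⟨y, ?_, ?_⟩
    · have := hy ⟨0, by omega⟩
      simpa using this
    · have := hy ⟨1, by omega⟩
      simpa using this
  exact h _ _ (key _ _) (key _ _) (key _ _)

/-- comparisons -/
theorem vc_le {X Y Q : Type*} [LinearOrder Q] (a : X → Q) (b : Y → Q) :
    VCdim (fun x y => decide (a x ≤ b y)) 1 := by
  refine vc_one _ ?_
  rintro x x' - ⟨y, h1, h2⟩ ⟨y', h3, h4⟩
  simp only [decide_eq_true_eq, decide_eq_false_iff_not, not_le] at h1 h2 h3 h4
  exact absurd (lt_of_le_of_lt h1 h2) (not_lt.mpr (le_of_lt (lt_of_le_of_lt h4 h3)))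

theorem vc_lt {X Y Q : Type*} [LinearOrder Q] (a : X → Q) (b : Y → Q) :
    VCdim (fun x y => decide (a x < b y)) 1 := by
  refine vc_one _ ?_
  rintro x x' - ⟨y, h1, h2⟩ ⟨y', h3, h4⟩
  simp only [decide_eq_true_eq, decide_eq_false_iff_not, not_lt] at h1 h2 h3 h4
  exact absurd (lt_of_lt_of_le h1 h2) (not_lt.mpr (le_of_lt (lt_of_lt_of_le h4 h3)))

theorem vc_ge {X Y Q : Type*} [LinearOrder Q] (a : X → Q) (b : Y → Q) :
    VCdim (fun x y => decide (b y ≤ a x)) 1 := by
  refine vc_one _ ?_
  rintro x x' - ⟨y, h1, h2⟩ ⟨y', h3, h4⟩
  simp only [decide_eq_true_eq, decide_eq_false_iff_not, not_le] at h1 h2 h3 h4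
  exact absurd (lt_of_lt_of_le h2 h1) (not_lt.mpr (le_of_lt (lt_of_lt_of_le h3 h4)))

theorem vc_ne {X : Type*} [DecidableEq X] : VCdim (fun x y : X => decide (x ≠ y)) 1 := by
  refine vc_one _ ?_
  rintro x x' ⟨y, h1, h2⟩ ⟨y', h3, h4⟩ -
  simp only [decide_eq_true_eq, decide_eq_false_iff_not, ne_eq, not_not] at h1 h2 h3 h4
  subst h1
  subst h2
  exact h3 h4

/-- complements of rectangles -/
theorem vc_rect {X Y : Type*} (A : X → Prop) (B : Y → Prop) (F : X → Y → Bool)
    (h : ∀ x y, F x y = false ↔ A x ∧ B y) : VCdim F 1 := by
  refine vc_one _ ?_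
  rintro x x' ⟨y, h1, h2⟩ ⟨y', h3, h4⟩ -
  have h5 := ((h x y).mp h1).1
  have h6 := ((h x' y').mp h4).2
  rw [(h x y').mpr ⟨h5, h6⟩] at h3
  exact Bool.noConfusion h3

/-! ### Transcripts -/

/-- A protocol gives a labelling with rectangles. -/
theorem labels {X Y : Type*} (F : X → Y → Bool) (c : ℕ) (h : Proto F c) :
    ∃ (τ : X → Y → Fin (2 ^ c)) (out : Fin (2 ^ c) → Bool), (∀ x y, out (τ x y) = F x y) ∧
      ∀ x x' y y', τ x y = τ x' y' → τ x y' = τ x y := by
  obtain ⟨owner, a, b, out, hout⟩ := h
  have hcard : Fintype.card (List.Vector Bool c) = 2 ^ c := by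
    rw [card_vector, Fintype.card_bool]
  let e : List.Vector Bool c ≃ Fin (2 ^ c) := Fintype.equivFinOfCardEq hcard
  refine ⟨fun x y => e ⟨tr owner a b x y c, tr_length owner a b x y c⟩, fun t => out (e.symm t).1,
    fun x y => ?_, fun x x' y y' hxy => ?_⟩
  · show out (e.symm (e _)).1 = F x y
    rw [e.symm_apply_apply]
    exact hout x y
  · have h1 : tr owner a b x y c = tr owner a b x' y' c := congrArg Subtype.val (e.injective hxy)
    have h2 := tr_rect owner a b x x' y y' c h1
    show e _ = e _
    congr 1
    exact Subtype.ext h2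

/-! ### Partially ordered sets -/

/-- The matrix of the strict order. -/
noncomputable def below (P : Type*) [PartialOrder P] (x y : P) : Bool := by
  classical exact decide (x < y)

theorem below_true {P : Type*} [PartialOrder P] (x y : P) : below P x y = true ↔ x < y := by
  simp [below]

/-- `m` linear extensions the intersection of which is the order; so the dimension of `P` in the
sense of Dushnik and Miller is at most `m`. A linear extension is given by an injective increasing
function. -/
def Realizer (P : Type*) [PartialOrder P] (m : ℕ) : Prop :=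
  ∃ f : Fin m → P → ℤ, (∀ j, Function.Injective (f j)) ∧ ∀ x y : P, x ≤ y ↔ ∀ j, f j x ≤ f j y

theorem Realizer.of_card {P : Type*} [PartialOrder P] {ι : Type*} [Fintype ι] (m : ℕ)
    (hm : Fintype.card ι = m) (f : ι → P → ℤ) (hinj : ∀ j, Function.Injective (f j))
    (h : ∀ x y : P, x ≤ y ↔ ∀ j, f j x ≤ f j y) : Realizer P m := by
  classical
  let e := Fintype.equivFinOfCardEq hm
  refine ⟨fun j => f (e.symm j), fun j => hinj _, fun x y => ?_⟩
  rw [h]
  constructor
  · intro hh j
    exact hh _
  · intro hh j
    have := hh (e j)
    simpa using this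

/-- A linear extension of a finite partially ordered set. -/
theorem exists_linear (P : Type*) [Fintype P] [PartialOrder P] :
    ∃ (N : ℤ) (f : P → ℤ), 0 < N ∧ Function.Injective f ∧ (∀ x y, x ≤ y → f x ≤ f y) ∧
      ∀ x, 0 ≤ f x ∧ f x < N := by
  classical
  have : Fintype (LinearExtension P) := inferInstanceAs (Fintype P)
  let e : Fin (Fintype.card (LinearExtension P)) ≃o LinearExtension P :=
    Fintype.orderIsoFinOfCardEq (LinearExtension P) rfl
  refine ⟨Fintype.card (LinearExtension P) + 1, fun x => ((e.symm (toLinearExtension x)).1 : ℤ),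
    by positivity, ?_, ?_, ?_⟩
  · intro x y hxy
    have hxy' : (((e.symm (toLinearExtension x)).1 : ℕ) : ℤ) =
        ((e.symm (toLinearExtension y)).1 : ℕ) := hxy
    have h1 : (e.symm (toLinearExtension x)).1 = (e.symm (toLinearExtension y)).1 := by
      exact_mod_cast hxy'
    have h2 := e.symm.injective (Fin.ext h1)
    exact h2
  · intro x y hxy
    have h1 : toLinearExtension x ≤ toLinearExtension y := toLinearExtension.monotone hxy
    have h2 := e.symm.monotone h1
    show (((e.symm (toLinearExtension x)).1 : ℕ) : ℤ) ≤ ((e.symm (toLinearExtension y)).1 : ℕ)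
    exact_mod_cast h2
  · intro x
    refine ⟨Int.natCast_nonneg _, ?_⟩
    have := (e.symm (toLinearExtension x)).2
    have h3 : (((e.symm (toLinearExtension x)).1 : ℕ) : ℤ) <
        (Fintype.card (LinearExtension P) : ℤ) := by exact_mod_cast this
    linarith

/-- The dimension is bounded in terms of the communication complexity of the strict order. -/
theorem realizer_of_proto (P : Type*) [Fintype P] [PartialOrder P] (c : ℕ)
    (h : Proto (below P) c) : Realizer P (2 ^ (c + 1)) := by
  classical
  obtain ⟨τ, out, hout, hrect⟩ := labels (below P) c h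
  obtain ⟨N, l, hN, hinj, hmono, hbd⟩ := exists_linear P
  -- the blocks
  let A : Fin (2 ^ c) → P → Prop := fun t x => out t = false ∧ ∃ y, τ x y = t
  let W : Fin (2 ^ c) → P → Prop := fun t z => ∃ a, A t a ∧ a < z
  let block : Fin (2 ^ c) → P → ℤ := fun t z => if W t z then 2 else if A t z then 1 else 0
  have hblt : ∀ t x y, x < y → block t x ≤ block t y ∧ (block t x = 1 → block t y = 2) := by
    intro t x y hxy
    have h1 : W t x → W t y := fun ⟨a, ha, hax⟩ => ⟨a, ha, hax.trans hxy⟩
    have h2 : A t x → W t y := fun ha => ⟨x, ha, hxy⟩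
    by_cases hWx : W t x
    · simp [block, hWx, h1 hWx]
    · by_cases hAx : A t x
      · simp [block, hWx, hAx, h2 hAx]
      · simp only [block, hWx, hAx, if_false]
        refine ⟨?_, by norm_num⟩
        split_ifs <;> norm_num
  have hblock : ∀ t x, block t x = 0 ∨ block t x = 1 ∨ block t x = 2 := by
    intro t x
    simp only [block]
    split_ifs <;> simp
  let key : Fin (2 ^ c) × Bool → P → ℤ := fun p z =>
    block p.1 z * (3 * N) + (if p.2 = false ∧ block p.1 z = 1 then - l z else l z)
  have hkey : ∀ p z, block p.1 z * (3 * N) - N < key p z ∧ key p z < block p.1 z * (3 * N) + N := by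
    intro p z
    have := hbd z
    simp only [key]
    split_ifs <;> constructor <;> linarith
  have hlt : ∀ p x y, block p.1 x < block p.1 y → key p x < key p y := by
    intro p x y hxy
    have h1 := (hkey p x).2
    have h2 := (hkey p y).1
    have h3 : block p.1 x + 1 ≤ block p.1 y := hxy
    have h4 : (block p.1 x + 1) * (3 * N) ≤ block p.1 y * (3 * N) :=
      mul_le_mul_of_nonneg_right h3 (by linarith)
    linarith
  refine Realizer.of_card (ι := Fin (2 ^ c) × Bool) _ (by
    rw [Fintype.card_prod, Fintype.card_fin, Fintype.card_bool, pow_succ]) key ?_ ?_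
  · intro p x y hxy
    have hb : block p.1 x = block p.1 y := by
      rcases lt_trichotomy (block p.1 x) (block p.1 y) with hh | hh | hh
      · exact absurd hxy (hlt p x y hh).ne
      · exact hh
      · exact absurd hxy (hlt p y x hh).ne'
    simp only [key, hb] at hxy
    apply hinj
    split_ifs at hxy <;> linarith
  · intro x y
    constructor
    · intro hxy p
      rcases hxy.eq_or_lt with rfl | hxy
      · exact le_rfl
      obtain ⟨h1, h2⟩ := hblt p.1 x y hxy
      rcases h1.lt_or_eq with h3 | h3
      · exact (hlt p x y h3).le
      · have h4 : block p.1 x ≠ 1 := by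
          intro h5
          have := h2 h5
          omega
        have h5 : block p.1 y ≠ 1 := by rwa [← h3]
        have h6 := hmono x y hxy.le
        simp only [key, h3, h5, and_false, if_false]
        linarith
    · intro hall
      by_contra hnle
      by_cases hyx : y < x
      · -- all keys are strictly increasing
        let t := τ x y
        have h1 := hall (t, true)
        have h2 := (hblt t y x hyx).1
        rcases h2.lt_or_eq with h3 | h3
        · exact absurd h1 (not_le.mpr (hlt (t, true) y x h3))
        · simp only [key, h3] at h1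
          have h4 : l y ≤ l x := hmono y x hyx.le
          have h5 : l y ≠ l x := fun hh => hyx.ne (hinj hh)
          simp at h1
          omega
      · have hxy0 : below P x y = false := by
          rw [← Bool.not_eq_true, below_true]
          exact fun hh => hnle hh.le
        set t := τ x y with ht
        have hot : out t = false := by rw [ht, hout]; exact hxy0
        have hAx : A t x := ⟨hot, y, ht.symm⟩
        have hWy : ¬ W t y := by
          rintro ⟨a, ⟨-, y', hay⟩, hlt'⟩
          have h1 : τ a y = t := by
            have := hrect a x y' y (hay.trans ht)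
            rw [this, hay]
          have h2 := hout a y
          rw [h1, hot] at h2
          have h3 := (below_true a y).mpr hlt'
          rw [← h2] at h3
          exact Bool.noConfusion h3
        have hx1 : block t x = 1 ∨ block t x = 2 := by
          simp only [block, hAx]
          split_ifs <;> simp
        have hy1 : block t y = 0 ∨ block t y = 1 := by
          simp only [block, hWy, if_false]
          split_ifs <;> simp
        have hne : x ≠ y := fun hh => hnle hh.le
        have hlne : l x ≠ l y := fun hh => hne (hinj hh)
        by_cases hb : block t y < block t x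
        · exact absurd (hall (t, true)) (not_le.mpr (hlt (t, true) y x hb))
        · have hbx : block t x = 1 := by omega
          have hby : block t y = 1 := by omega
          rcases lt_or_gt_of_ne hlne with hl | hl
          · have h1 := hall (t, false)
            simp only [key, hbx, hby] at h1
            simp at h1
            omega
          · have h1 := hall (t, true)
            simp only [key, hbx, hby] at h1
            simp at h1
            omega

end Pool.Agent.H72.LD
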