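import Pool.Agent.H72.LD.Bound

/-!
Post-selected protocols whose outputs are given by sets of small VC dimension.
-/

set_option autoImplicit false

namespace Pool.Agent.H72.LD

open Finset Pool.Agent.H630R2.LR Pool.Agent.R533.VC

/-- A function of small growth on which `F` is mostly equal to `v` gives a monochromatic
rectangle. -/
theorem rich_one {X Y : Type*} [Fintype X] [Fintype Y] (F f : X → Y → Bool) (v : Bool) (D : ℕ)
    (hG : Growth f D) (r : ℕ) (hr : (comm F).rank ≤ r) (A : Finset X) (B : Finset Y)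
    (hA : A.Nonempty) (hB : B.Nonempty) (M : ℕ)
    (h : A.card * B.card + M * (16 * (r + 1)) *
        (∑ y ∈ B, (A.filter (fun x => f x y = true ∧ F x y ≠ v)).card) ≤
      M * ∑ y ∈ B, (A.filter (fun x => f x y = true)).card)
    (s t : ℕ) (hs : 64 * (r + 1) * M ≤ 2 ^ s) (ht : 2 * D ≤ 2 ^ t) :
    ∃ A' ⊆ A, ∃ B' ⊆ B, (∀ x ∈ A', ∀ y ∈ B', F x y = v) ∧
      A.card * B.card ≤ 32 * M ^ 2 * 2 ^ (2 * D * (s + t) + 2) * (A'.card * B'.card) := by
  classical
  have hApos := hA.card_pos
  have hBpos := hB.card_pos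
  have hMpos : 0 < M := by
    rcases Nat.eq_zero_or_pos M with h0 | h0
    · rw [h0] at h
      have := Nat.mul_pos hApos hBpos
      omega
    · exact h0
  let a : Y → ℕ := fun y => (A.filter (fun x => f x y = true)).card
  let e : Y → ℕ := fun y => (A.filter (fun x => f x y = true ∧ F x y ≠ v)).card
  have haA : ∀ y, a y ≤ A.card := fun y => card_filter_le _ _
  have h' : A.card * B.card + M * (16 * (r + 1)) * (∑ y ∈ B, e y) ≤ M * ∑ y ∈ B, a y := h
  set B1 := B.filter (fun y => A.card ≤ 2 * M * a y ∧ 16 * (r + 1) * e y ≤ a y) with hB1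
  have hB1c : B.card ≤ 2 * M * B1.card := by
    have h1 : 2 * (M * ∑ y ∈ B, a y) ≤ 2 * M * (A.card * B1.card) + A.card * B.card +
        2 * (M * (16 * (r + 1)) * (∑ y ∈ B, e y)) := by
      have h2 : ∀ y ∈ B, 2 * M * a y ≤
          (if A.card ≤ 2 * M * a y ∧ 16 * (r + 1) * e y ≤ a y then 2 * M * A.card else 0) +
            A.card + 2 * M * (16 * (r + 1)) * e y := by
        intro y _
        split_ifs with hc
        · have := Nat.mul_le_mul_left (2 * M) (haA y)
          omega
        · rw [not_and_or] at hc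
          rcases hc with hc | hc
          · omega
          · push Not at hc
            have := Nat.mul_le_mul_left (2 * M) hc.le
            calc 2 * M * a y ≤ 2 * M * (16 * (r + 1) * e y) := this
              _ = 2 * M * (16 * (r + 1)) * e y := by ring
              _ ≤ _ := Nat.le_add_left _ _
      calc 2 * (M * ∑ y ∈ B, a y) = ∑ y ∈ B, 2 * M * a y := by rw [← mul_sum]; ring
        _ ≤ ∑ y ∈ B, ((if A.card ≤ 2 * M * a y ∧ 16 * (r + 1) * e y ≤ a y then 2 * M * A.card
            else 0) + A.card + 2 * M * (16 * (r + 1)) * e y) := sum_le_sum h2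
        _ = B1.card * (2 * M * A.card) + B.card * A.card +
            2 * M * (16 * (r + 1)) * ∑ y ∈ B, e y := by
            rw [sum_add_distrib, sum_add_distrib, ← sum_filter, sum_const, sum_const,
              smul_eq_mul, smul_eq_mul, ← mul_sum]
        _ = _ := by ring
    have h3 : A.card * B.card ≤ A.card * (2 * M * B1.card) := by
      have h4 : 2 * M * (A.card * B1.card) = A.card * (2 * M * B1.card) := by ring
      omega
    exact Nat.le_of_mul_le_mul_left h3 hApos
  have hB1ne : B1.Nonempty := by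
    rw [← card_pos]
    refine Nat.pos_of_ne_zero fun h0 => ?_
    rw [h0] at hB1c
    omega
  set E := 32 * (r + 1) * M with hE
  have hE1 : 1 ≤ E := Nat.mul_pos (by omega) hMpos
  obtain ⟨P, hsep, p, hp, B2, hB2, hclose, hcard⟩ := cluster f A B1 hB1ne E
  have hPc := pack f D hG A hA P E hE1 hsep s t (by
    refine le_trans (le_of_eq ?_) hs
    rw [hE]
    ring) ht
  have hB2ne : B2.Nonempty := by
    rw [nonempty_iff_ne_empty]
    intro h0
    rw [h0, card_empty, mul_zero] at hcard
    have := hB1ne.card_pos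
    omega
  set Av := A.filter (fun x => f x p = true) with hAv
  have hdif : ∀ y ∈ B2, a y ≤ Av.card + dif f A y p := by
    intro y _
    refine le_trans (card_le_card ?_) (card_union_le _ _)
    intro x hx
    rw [mem_filter] at hx
    by_cases hxp : f x p = true
    · exact mem_union_left _ (mem_filter.mpr ⟨hx.1, hxp⟩)
    · refine mem_union_right _ (mem_filter.mpr ⟨hx.1, ?_⟩)
      rw [hx.2]
      exact fun hh => hxp hh.symm
  have hAvc : A.card ≤ 4 * M * Av.card := by
    obtain ⟨y, hy⟩ := hB2ne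
    have h1 := hdif y hy
    have h2 := (mem_filter.mp (hB2 hy)).2.1
    have h3 := hclose y hy
    have h4 : 4 * M * dif f A y p ≤ A.card := by
      refine le_trans (Nat.mul_le_mul_right _ ?_) h3
      rw [hE]
      exact Nat.mul_le_mul_right _ (by omega)
    have h5 : 2 * M * a y ≤ 2 * M * (Av.card + dif f A y p) := Nat.mul_le_mul_left _ h1
    have h6 : 2 * (2 * M * (Av.card + dif f A y p)) =
      4 * M * Av.card + 4 * M * dif f A y p := by ring
    omega
  have herr : 4 * (r + 1) * (∑ x ∈ Av, (B2.filter (fun y => F x y ≠ v)).card) ≤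
      Av.card * B2.card := by
    have h1 : (∑ x ∈ Av, (B2.filter (fun y => F x y ≠ v)).card) =
        ∑ y ∈ B2, (Av.filter (fun x => F x y ≠ v)).card := by
      simp only [card_filter]
      exact sum_comm
    have h2 : ∀ y ∈ B2, 4 * (r + 1) * (Av.filter (fun x => F x y ≠ v)).card ≤ Av.card := by
      intro y hy
      have h3 : (Av.filter (fun x => F x y ≠ v)).card ≤ e y + dif f A y p := by
        refine le_trans (card_le_card ?_) (card_union_le _ _)
        intro x hx
        rw [mem_filter, hAv, mem_filter] at hx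
        by_cases hxy : f x y = true
        · exact mem_union_left _ (mem_filter.mpr ⟨hx.1.1, hxy, hx.2⟩)
        · refine mem_union_right _ (mem_filter.mpr ⟨hx.1.1, ?_⟩)
          rw [hx.1.2]
          exact hxy
      have h4 := (mem_filter.mp (hB2 hy)).2.2
      have h5 := hdif y hy
      have h6 : 8 * (r + 1) * dif f A y p ≤ Av.card := by
        have h7 : 4 * M * (8 * (r + 1) * dif f A y p) ≤ 4 * M * Av.card := by
          calc 4 * M * (8 * (r + 1) * dif f A y p) = E * dif f A y p := by rw [hE]; ring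
            _ ≤ A.card := hclose y hy
            _ ≤ _ := hAvc
        exact Nat.le_of_mul_le_mul_left h7 (by omega)
      have h8 : dif f A y p ≤ Av.card :=
        le_trans (Nat.le_mul_of_pos_left _ (by omega)) h6
      have h9 : 16 * (r + 1) * e y ≤ 2 * Av.card := by omega
      have h10 : 4 * (r + 1) * (Av.filter (fun x => F x y ≠ v)).card ≤
          4 * (r + 1) * (e y + dif f A y p) := Nat.mul_le_mul_left _ h3
      have h11 : 4 * (4 * (r + 1) * (e y + dif f A y p)) =
          16 * (r + 1) * e y + 2 * (8 * (r + 1) * dif f A y p) := by ring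
      omega
    rw [h1, mul_sum]
    calc ∑ y ∈ B2, 4 * (r + 1) * (Av.filter (fun x => F x y ≠ v)).card
        ≤ ∑ _y ∈ B2, Av.card := sum_le_sum h2
      _ = Av.card * B2.card := by rw [sum_const, smul_eq_mul, mul_comm]
  obtain ⟨A', hA', B', hB', hval, hc⟩ :=
    few_errors F Av B2 hB2ne v r ((rk_le F _ _).trans hr) herr
  refine ⟨A', hA'.trans (filter_subset _ _), B', (hB'.trans hB2).trans (filter_subset _ _),
    hval, ?_⟩
  calc A.card * B.card ≤ (4 * M * Av.card) * (2 * M * B1.card) :=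
        Nat.mul_le_mul hAvc hB1c
    _ ≤ (4 * M * Av.card) * (2 * M * (P.card * B2.card)) :=
        Nat.mul_le_mul_left _ (Nat.mul_le_mul_left _ hcard)
    _ = 8 * M ^ 2 * P.card * (Av.card * B2.card) := by ring
    _ ≤ 8 * M ^ 2 * P.card * (4 * (A'.card * B'.card)) := Nat.mul_le_mul_left _ hc
    _ = 32 * M ^ 2 * P.card * (A'.card * B'.card) := by ring
    _ ≤ 32 * M ^ 2 * 2 ^ (2 * D * (s + t) + 2) * (A'.card * B'.card) :=
        Nat.mul_le_mul_right _ (Nat.mul_le_mul_left _ hPc)

/-- Independent samples. -/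
theorem amp_sum {X Y ι : Type*} [Fintype ι] (h : ι → X → Y → Bool) (lab : ι → Bool) (p : ι → ℝ)
    (n : ℕ) (c : Bool) (x : X) (y : Y) :
    ∑ φ : Fin n → ι, (∏ j, (if lab (φ j) = c then p (φ j) else 0)) *
        (if ∀ j, h (φ j) x y = true then (1 : ℝ) else 0) =
      (∑ i, if h i x y = true ∧ lab i = c then p i else 0) ^ n := by
  classical
  rw [Fintype.sum_pow]
  refine sum_congr rfl fun φ _ => ?_
  by_cases hall : ∀ j, h (φ j) x y = true
  · rw [if_pos hall, mul_one]
    refine prod_congr rfl fun j _ => ?_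
    simp [hall j]
  · rw [if_neg hall, mul_zero]
    push Not at hall
    obtain ⟨j, hj⟩ := hall
    symm
    refine prod_eq_zero (mem_univ j) ?_
    simp [hj]

theorem two_mul_pow_le (g : ℕ) (hg : 1 ≤ g) : 2 * g ^ g ≤ (g + 1) ^ g := by
  have hg0 : (0 : ℝ) < g := by exact_mod_cast hg
  have h1 : 1 + (g : ℝ) * (1 / g) ≤ (1 + 1 / (g : ℝ)) ^ g :=
    one_add_mul_le_pow (by
      have : (0 : ℝ) ≤ 1 / g := by positivity
      linarith) g
  rw [mul_one_div_cancel hg0.ne'] at h1
  have h2 : (2 : ℝ) * (g : ℝ) ^ g ≤ ((g : ℝ) + 1) ^ g := by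
    calc (2 : ℝ) * (g : ℝ) ^ g ≤ (1 + 1 / (g : ℝ)) ^ g * (g : ℝ) ^ g :=
          mul_le_mul_of_nonneg_right (by linarith) (by positivity)
      _ = ((g : ℝ) + 1) ^ g := by
          rw [← mul_pow]
          congr 1
          field_simp
  exact_mod_cast h2

/-- The total weight of the samples which output `c` at `(x, y)`. -/
noncomputable def outWeight {X Y ι : Type*} [Fintype ι] (h : ι → X → Y → Bool) (lab : ι → Bool)
    (p : ι → ℝ) (c : Bool) (x : X) (y : Y) : ℝ :=
  ∑ i, if h i x y = true ∧ lab i = c then p i else 0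

theorem outWeight_nonneg {X Y ι : Type*} [Fintype ι] (h : ι → X → Y → Bool) (lab : ι → Bool)
    (p : ι → ℝ) (hp : ∀ i, 0 ≤ p i) (c : Bool) (x : X) (y : Y) : 0 ≤ outWeight h lab p c x y :=
  sum_nonneg fun i _ => by
    split_ifs
    · exact hp i
    · exact le_rfl

/-- In every rectangle there is a large monochromatic rectangle. -/
theorem rich_post {X Y ι : Type*} [Fintype X] [Fintype Y] [Fintype ι] (F : X → Y → Bool)
    (N g D : ℕ) (hg : 1 ≤ g) (h : ι → X → Y → Bool) (lab : ι → Bool)
    (hG : ∀ i, Growth (h i) D) (p : ι → ℝ) (hp : ∀ i, 0 ≤ p i) (hp1 : ∑ i, p i ≤ 1)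
    (hgap : ∀ x y, ((g : ℝ) + 1) * outWeight h lab p (!F x y) x y ≤
      g * outWeight h lab p (F x y) x y)
    (htot : ∀ x y, 1 ≤ N * (outWeight h lab p (F x y) x y + outWeight h lab p (!F x y) x y))
    (r : ℕ) (hr : (comm F).rank ≤ r) (k : ℕ) (hk1 : 1 ≤ k) (hk : 32 * (r + 1) ≤ 2 ^ k)
    (s t : ℕ) (hs : 64 * (r + 1) * (2 * (2 * N) ^ (g * k)) ≤ 2 ^ s)
    (ht : 2 * (g * k * D) ≤ 2 ^ t) :
    Rich F (32 * (2 * (2 * N) ^ (g * k)) ^ 2 * 2 ^ (2 * (g * k * D) * (s + t) + 2)) := by
  classical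
  intro A B hA hB
  set n := g * k with hn
  have hn1 : 1 ≤ n := Nat.mul_pos hg hk1
  set M := 2 * (2 * N) ^ n with hM
  set K := 16 * (r + 1) with hK
  let S : Bool → X → Y → ℝ := outWeight h lab p
  have hS0 : ∀ c x y, 0 ≤ S c x y := fun c x y => outWeight_nonneg h lab p hp c x y
  -- the gap after repetition
  have hgapn : ∀ x y, (2 : ℝ) ^ k * S (!F x y) x y ^ n ≤ S (F x y) x y ^ n := by
    intro x y
    have h1 : (((g : ℝ) + 1) * S (!F x y) x y) ^ n ≤ (g * S (F x y) x y) ^ n :=
      pow_le_pow_left₀ (mul_nonneg (by positivity) (hS0 _ _ _)) (hgap x y) n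
    rw [mul_pow, mul_pow] at h1
    have h2 : (2 : ℝ) ^ k * (g : ℝ) ^ n ≤ ((g : ℝ) + 1) ^ n := by
      have h3 := Nat.pow_le_pow_left (two_mul_pow_le g hg) k
      rw [mul_pow, ← pow_mul, ← pow_mul, ← hn] at h3
      exact_mod_cast h3
    have hgn : (0 : ℝ) < (g : ℝ) ^ n := by
      have : (0 : ℝ) < g := by exact_mod_cast hg
      positivity
    have h4 : (g : ℝ) ^ n * ((2 : ℝ) ^ k * S (!F x y) x y ^ n) ≤ (g : ℝ) ^ n * S (F x y) x y ^ n := by
      calc (g : ℝ) ^ n * ((2 : ℝ) ^ k * S (!F x y) x y ^ n)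
          = ((2 : ℝ) ^ k * (g : ℝ) ^ n) * S (!F x y) x y ^ n := by ring
        _ ≤ ((g : ℝ) + 1) ^ n * S (!F x y) x y ^ n :=
            mul_le_mul_of_nonneg_right h2 (pow_nonneg (hS0 _ _ _) n)
        _ ≤ _ := h1
    exact le_of_mul_le_mul_left h4 hgn
  have hlow : ∀ x y, 1 ≤ ((2 * N : ℕ) : ℝ) ^ n * S (F x y) x y ^ n := by
    intro x y
    rw [← mul_pow]
    refine one_le_pow₀ ?_
    have h1 : 1 ≤ (N : ℝ) * (S (F x y) x y + S (!F x y) x y) := htot x y
    have h2 : S (!F x y) x y ≤ S (F x y) x y := by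
      have h3 : ((g : ℝ) + 1) * S (!F x y) x y ≤ g * S (F x y) x y := hgap x y
      have h4 : (g : ℝ) * S (F x y) x y ≤ (g + 1) * S (F x y) x y :=
        mul_le_mul_of_nonneg_right (by linarith) (hS0 _ _ _)
      exact le_of_mul_le_mul_left (h3.trans h4) (by positivity)
    push_cast
    nlinarith [(Nat.cast_nonneg N : (0 : ℝ) ≤ N)]
  -- the samples
  let P : (Fin n → ι) × Bool → ℝ := fun q => ∏ j, (if lab (q.1 j) = q.2 then p (q.1 j) else 0)
  let ff : (Fin n → ι) → X → Y → Bool := fun φ x y => decide (∀ j, h (φ j) x y = true)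
  have hP0 : ∀ q, 0 ≤ P q := fun q => prod_nonneg fun j _ => by
    split_ifs
    · exact hp _
    · exact le_rfl
  have hP1 : ∑ q, P q ≤ 1 := by
    rw [Fintype.sum_prod_type]
    simp only [Fintype.sum_bool]
    rw [sum_add_distrib]
    have e1 : ∀ c : Bool, ∑ φ : Fin n → ι, P (φ, c) = (∑ i, if lab i = c then p i else 0) ^ n := by
      intro c
      rw [Fintype.sum_pow]
    rw [e1, e1]
    have e2 : (∑ i, if lab i = true then p i else 0) + (∑ i, if lab i = false then p i else 0) =
        ∑ i, p i := by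
      rw [← sum_add_distrib]
      refine sum_congr rfl fun i _ => ?_
      cases lab i <;> simp
    have e3 : ∀ c : Bool, 0 ≤ ∑ i, if lab i = c then p i else 0 := fun c =>
      sum_nonneg fun i _ => by
        split_ifs
        · exact hp i
        · exact le_rfl
    have e4 : ∀ z : ℝ, 0 ≤ z → z ≤ 1 → z ^ n ≤ z := fun z hz0 hz1 =>
      pow_le_of_le_one hz0 hz1 (by omega)
    have h1 := e3 true
    have h2 := e3 false
    have h3 := e4 _ h1 (by linarith)
    have h4 := e4 _ h2 (by linarith)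
    linarith
  let w : (Fin n → ι) × Bool → X → Y → ℝ := fun q x y =>
    M * (if ff q.1 x y = true then 1 else 0) -
      M * K * (if ff q.1 x y = true ∧ F x y ≠ q.2 then 1 else 0)
  have hw : ∀ x y, 1 ≤ ∑ q, P q * w q x y := by
    intro x y
    have hT : ∀ c, ∑ φ : Fin n → ι, P (φ, c) * (if ff φ x y = true then (1 : ℝ) else 0) =
        S c x y ^ n := by
      intro c
      rw [show S c x y = ∑ i, if h i x y = true ∧ lab i = c then p i else 0 from rfl,
        ← amp_sum h lab p n c x y]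
      refine sum_congr rfl fun φ _ => ?_
      congr 1
      show (if decide (∀ j, h (φ j) x y = true) = true then (1 : ℝ) else 0) = _
      simp only [decide_eq_true_eq]
    have e1 : ∑ q, P q * w q x y = M * (S (F x y) x y ^ n) +
        (M - M * K) * (S (!F x y) x y ^ n) := by
      rw [Fintype.sum_prod_type]
      simp only [Fintype.sum_bool]
      rw [sum_add_distrib]
      have e2 : ∀ c, ∑ φ : Fin n → ι, P (φ, c) * w (φ, c) x y =
          (M - M * K * (if F x y ≠ c then 1 else 0)) * S c x y ^ n := by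
        intro c
        rw [← hT c, mul_sum]
        refine sum_congr rfl fun φ _ => ?_
        show P (φ, c) * (M * (if ff φ x y = true then 1 else 0) -
          M * K * (if ff φ x y = true ∧ F x y ≠ c then 1 else 0)) = _
        by_cases hf : ff φ x y = true <;> by_cases hc : F x y ≠ c <;> simp [hf, hc] <;> ring
      rw [e2, e2]
      cases hF : F x y
      · simp
        ring
      · simp
    rw [e1]
    have h1 := hgapn x y
    have h2 := hlow x y
    have h3 : (0 : ℝ) ≤ S (!F x y) x y ^ n := pow_nonneg (hS0 _ _ _) n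
    have h4 : (2 : ℝ) * K ≤ 2 ^ k := by
      have : 2 * K ≤ 2 ^ k := by
        rw [hK]
        omega
      exact_mod_cast this
    have h5 : (2 : ℝ) * K * S (!F x y) x y ^ n ≤ S (F x y) x y ^ n :=
      (mul_le_mul_of_nonneg_right h4 h3).trans h1
    have hMr : (M : ℝ) = 2 * ((2 * N : ℕ) : ℝ) ^ n := by
      rw [hM]
      push_cast
      ring
    have hM0 : (0 : ℝ) ≤ M := Nat.cast_nonneg _
    have h6 : (2 : ℝ) ≤ M * S (F x y) x y ^ n := by
      rw [hMr]
      linarith
    have h7 : (M : ℝ) * (2 * K * S (!F x y) x y ^ n) ≤ M * S (F x y) x y ^ n :=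
      mul_le_mul_of_nonneg_left h5 hM0
    have h8 : 0 ≤ (M : ℝ) * S (!F x y) x y ^ n := mul_nonneg hM0 h3
    nlinarith
  have hsum : (A.card : ℝ) * B.card ≤ ∑ q, P q * ∑ y ∈ B, ∑ x ∈ A, w q x y := by
    have e1 : ∑ q, P q * ∑ y ∈ B, ∑ x ∈ A, w q x y = ∑ y ∈ B, ∑ x ∈ A, ∑ q, P q * w q x y := by
      simp only [mul_sum]
      rw [sum_comm]
      refine sum_congr rfl fun y _ => ?_
      rw [sum_comm]
    rw [e1]
    calc (A.card : ℝ) * B.card = ∑ _y ∈ B, ∑ _x ∈ A, (1 : ℝ) := by
          simp [mul_comm]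
      _ ≤ _ := sum_le_sum fun y _ => sum_le_sum fun x _ => hw x y
  have hpos : (0 : ℝ) < (A.card : ℝ) * B.card := by
    have := Nat.mul_pos hA.card_pos hB.card_pos
    exact_mod_cast this
  obtain ⟨⟨φ, v⟩, hq⟩ := exists_of_weights P _ hP0 hP1 _ hpos hsum
  have hcast : ∑ y ∈ B, ∑ x ∈ A, w (φ, v) x y =
      ((M * ∑ y ∈ B, (A.filter (fun x => ff φ x y = true)).card : ℕ) : ℝ) -
        ((M * K * ∑ y ∈ B, (A.filter (fun x => ff φ x y = true ∧ F x y ≠ v)).card : ℕ) : ℝ) := by
    push_cast
    rw [mul_sum, mul_sum, ← sum_sub_distrib]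
    refine sum_congr rfl fun y _ => ?_
    rw [card_filter, card_filter]
    push_cast
    rw [mul_sum, mul_sum, ← sum_sub_distrib]
  have hnat : A.card * B.card + M * K *
      (∑ y ∈ B, (A.filter (fun x => ff φ x y = true ∧ F x y ≠ v)).card) ≤
      M * ∑ y ∈ B, (A.filter (fun x => ff φ x y = true)).card := by
    have hq' : (A.card : ℝ) * B.card ≤ ∑ y ∈ B, ∑ x ∈ A, w (φ, v) x y := hq
    rw [hcast] at hq'
    have : ((A.card * B.card + M * K *
      (∑ y ∈ B, (A.filter (fun x => ff φ x y = true ∧ F x y ≠ v)).card) : ℕ) : ℝ) ≤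
      ((M * ∑ y ∈ B, (A.filter (fun x => ff φ x y = true)).card : ℕ) : ℝ) := by
      rw [Nat.cast_add]
      rw [show ((A.card * B.card : ℕ) : ℝ) = (A.card : ℝ) * B.card by push_cast; ring]
      linarith
    exact_mod_cast this
  have hgr : Growth (ff φ) (n * D) := by
    have h1 := growth_comp n (fun j => h (φ j)) (fun _ => D) (fun j => hG (φ j))
      (fun _ b => decide (∀ j, b j = true))
    rw [sum_const, card_univ, Fintype.card_fin, smul_eq_mul] at h1
    exact h1
  obtain ⟨A', hA', B', hB', hval, hc⟩ := rich_one F (ff φ) v (n * D) hgr r hr A B hA hB M hnat s t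
    hs ht
  exact ⟨A', hA', B', hB', v, hval, hc⟩

end Pool.Agent.H72.LD
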