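import Pool.Agent.H72.LD.Post

set_option autoImplicit false

namespace Pool.Agent.H72.LD

open Finset Pool.Agent.H630R2.LR Pool.Agent.R533.VC

theorem post_arith (D g u n : ℕ) (hg : 1 ≤ g) (hu : 1 ≤ u) :
    2 * (10 + u + 2 * (g * (u + 5)) * (1 + n) +
      2 * (g * (u + 5) * D) * (8 + 2 * u + g * (u + 5) * (2 + n))) * u + 2 ≤
      530 * (D + 1) * g ^ 2 * u ^ 3 * (1 + n) := by
  have hk : g * (u + 5) ≤ 6 * (g * u) := by nlinarith
  set v := g * u with hv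
  have hv1 : 1 ≤ v := Nat.mul_pos hg hu
  have huv : u ≤ v := Nat.le_mul_of_pos_left _ hg
  have h1 : 10 + u + 2 * (g * (u + 5)) * (1 + n) +
      2 * (g * (u + 5) * D) * (8 + 2 * u + g * (u + 5) * (2 + n)) ≤
      10 + v + 2 * (6 * v) * (1 + n) + 2 * (6 * v * D) * (8 + 2 * v + 6 * v * (2 + n)) := by
    gcongr
  have h2 : 10 + v + 2 * (6 * v) * (1 + n) + 2 * (6 * v * D) * (8 + 2 * v + 6 * v * (2 + n)) ≤
      264 * (D + 1) * v ^ 2 * (1 + n) := by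
    have hvv : v ≤ v ^ 2 := by nlinarith
    have e1 : 10 + v ≤ 11 * (v ^ 2 * (1 + n)) := by nlinarith
    have e2 : 2 * (6 * v) * (1 + n) ≤ 12 * (v ^ 2 * (1 + n)) := by nlinarith
    have e3 : 8 + 2 * v + 6 * v * (2 + n) ≤ 22 * (v * (1 + n)) := by nlinarith
    have e4 : 2 * (6 * v * D) * (8 + 2 * v + 6 * v * (2 + n)) ≤ 264 * (D * (v ^ 2 * (1 + n))) := by
      calc 2 * (6 * v * D) * (8 + 2 * v + 6 * v * (2 + n)) ≤
          2 * (6 * v * D) * (22 * (v * (1 + n))) := Nat.mul_le_mul_left _ e3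
        _ = 264 * (D * (v ^ 2 * (1 + n))) := by ring
    nlinarith [Nat.zero_le (v ^ 2 * (1 + n))]
  have h3 : 1 ≤ (D + 1) * g ^ 2 * u ^ 3 * (1 + n) := by
    have : 0 < (D + 1) * g ^ 2 * u ^ 3 * (1 + n) := by positivity
    exact this
  calc 2 * (10 + u + 2 * (g * (u + 5)) * (1 + n) +
      2 * (g * (u + 5) * D) * (8 + 2 * u + g * (u + 5) * (2 + n))) * u + 2
      ≤ 2 * (264 * (D + 1) * v ^ 2 * (1 + n)) * u + 2 * ((D + 1) * g ^ 2 * u ^ 3 * (1 + n)) := by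
        refine Nat.add_le_add (Nat.mul_le_mul_right _ (Nat.mul_le_mul_left _ (h1.trans h2))) ?_
        omega
    _ = 530 * (D + 1) * g ^ 2 * u ^ 3 * (1 + n) := by
        rw [hv]
        ring

/-- The protocol. -/
theorem proto_post {X Y ι : Type*} [Fintype X] [Fintype Y] [Fintype ι] (F : X → Y → Bool)
    (N g D : ℕ) (hN : 1 ≤ N) (hg : 1 ≤ g) (h : ι → X → Y → Bool) (lab : ι → Bool)
    (hG : ∀ i, Growth (h i) D) (p : ι → ℝ) (hp : ∀ i, 0 ≤ p i) (hp1 : ∑ i, p i ≤ 1)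
    (hgap : ∀ x y, ((g : ℝ) + 1) * outWeight h lab p (!F x y) x y ≤
      g * outWeight h lab p (F x y) x y)
    (htot : ∀ x y, 1 ≤ N * (outWeight h lab p (F x y) x y + outWeight h lab p (!F x y) x y)) :
    ∃ b, Proto F b ∧ (b : ℝ) ≤ 1060 * ((D : ℝ) + 1) * (g : ℝ) ^ 2 *
      (Real.logb 2 ((comm F).rank : ℝ) + 1) ^ 3 * (1 + Real.logb 2 (N : ℝ)) := by
  set r := (comm F).rank with hr
  set L := Real.logb 2 (r : ℝ) + 1 with hL
  have hL1 : 1 ≤ L := by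
    have := logb_nonneg r
    linarith
  have hM0 : 0 ≤ Real.logb 2 (N : ℝ) := logb_nonneg N
  set Λ := Real.logb 2 (N : ℝ) with hΛ
  have hD0 : (0 : ℝ) ≤ D := Nat.cast_nonneg _
  have hg1 : (1 : ℝ) ≤ g := by exact_mod_cast hg
  have hL3 : 1 ≤ L ^ 3 := one_le_pow₀ hL1
  have hg2 : 1 ≤ (g : ℝ) ^ 2 := one_le_pow₀ hg1
  have hone : (1 : ℝ) ≤ (g : ℝ) ^ 2 * L ^ 3 * (1 + Λ) := by
    have h1 : (1 : ℝ) ≤ (g : ℝ) ^ 2 * L ^ 3 := by nlinarith
    nlinarith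
  set u := Nat.clog 2 (r + 1) with hu
  set w := Nat.clog 2 N with hw
  have hru : r + 1 ≤ 2 ^ u := Nat.le_pow_clog (by norm_num) _
  have hNw : N ≤ 2 ^ w := Nat.le_pow_clog (by norm_num) _
  by_cases hDr : r + 1 ≤ D
  · refine ⟨r + 1, proto_rank F, ?_⟩
    have h1 : ((r + 1 : ℕ) : ℝ) ≤ D := by exact_mod_cast hDr
    have h2 : (D : ℝ) * 1 ≤ D * ((g : ℝ) ^ 2 * L ^ 3 * (1 + Λ)) :=
      mul_le_mul_of_nonneg_left hone hD0
    calc ((r + 1 : ℕ) : ℝ) ≤ D * ((g : ℝ) ^ 2 * L ^ 3 * (1 + Λ)) := by linarith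
      _ ≤ 1060 * ((D : ℝ) + 1) * ((g : ℝ) ^ 2 * L ^ 3 * (1 + Λ)) := by
          refine mul_le_mul_of_nonneg_right ?_ (by linarith)
          linarith
      _ = _ := by ring
  push Not at hDr
  have hDu : D ≤ 2 ^ u := by omega
  set k := u + 5 with hk
  set m := g * k with hm
  have hMle : 2 * (2 * N) ^ m ≤ 2 ^ (1 + m * (1 + w)) := by
    calc 2 * (2 * N) ^ m ≤ 2 * (2 * 2 ^ w) ^ m :=
          Nat.mul_le_mul_left _ (Nat.pow_le_pow_left (Nat.mul_le_mul_left _ hNw) m)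
      _ = 2 ^ (1 + m * (1 + w)) := by
          rw [← pow_succ', ← pow_mul, pow_add, pow_one, add_comm w 1, mul_comm m]
  have hR := rich_post F N g D hg h lab hG p hp hp1 hgap htot r hr.ge k (by omega) (by
    calc 32 * (r + 1) ≤ 32 * 2 ^ u := Nat.mul_le_mul_left _ hru
      _ = 2 ^ k := by rw [hk, pow_add]; ring)
    (7 + u + m * (1 + w)) (1 + u + m) (by
    calc 64 * (r + 1) * (2 * (2 * N) ^ m) ≤ 64 * 2 ^ u * 2 ^ (1 + m * (1 + w)) :=
          Nat.mul_le_mul (Nat.mul_le_mul_left _ hru) hMle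
      _ = 2 ^ (7 + u + m * (1 + w)) := by
          rw [show 7 + u + m * (1 + w) = 6 + u + (1 + m * (1 + w)) by ring, pow_add _ (6 + u),
            pow_add _ 6]
          norm_num) (by
    calc 2 * (m * D) ≤ 2 * (2 ^ m * 2 ^ u) := by
          refine Nat.mul_le_mul_left _ (Nat.mul_le_mul ?_ hDu)
          exact (Nat.lt_two_pow_self).le
      _ = 2 ^ (1 + u + m) := by
          rw [pow_add, pow_add]
          ring)
  set e := 7 + u + m * (1 + w) + (1 + u + m) with he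
  have hq : 32 * (2 * (2 * N) ^ m) ^ 2 * 2 ^ (2 * (m * D) * e + 2) ≤
      2 ^ (9 + 2 * m * (1 + w) + 2 * (m * D) * e) := by
    calc 32 * (2 * (2 * N) ^ m) ^ 2 * 2 ^ (2 * (m * D) * e + 2)
        ≤ 32 * (2 ^ (1 + m * (1 + w))) ^ 2 * 2 ^ (2 * (m * D) * e + 2) :=
          Nat.mul_le_mul_right _ (Nat.mul_le_mul_left _ (Nat.pow_le_pow_left hMle 2))
      _ = 2 ^ (9 + 2 * m * (1 + w) + 2 * (m * D) * e) := by
          rw [← pow_mul, show (32 : ℕ) = 2 ^ 5 by norm_num, ← pow_add, ← pow_add]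
          congr 1
          ring
  have hR' : Rich F (2 ^ (9 + 2 * m * (1 + w) + 2 * (m * D) * e)) := by
    intro A B hA hB
    obtain ⟨A', hA', B', hB', v, hv, hc⟩ := hR A B hA hB
    exact ⟨A', hA', B', hB', v, hv, hc.trans (Nat.mul_le_mul_right _ hq)⟩
  have hP := nw F _ Nat.one_le_two_pow hR' (10 + u + 2 * m * (1 + w) + 2 * (m * D) * e) (by
    rw [← hr]
    set q := 2 ^ (9 + 2 * m * (1 + w) + 2 * (m * D) * e) with hqd
    have h1 : 1 ≤ q := Nat.one_le_two_pow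
    calc 2 * r * q + 2 ≤ 2 * r * q + 2 * q := by omega
      _ = 2 * (r + 1) * q := by ring
      _ ≤ 2 * 2 ^ u * q := Nat.mul_le_mul_right _ (Nat.mul_le_mul_left _ hru)
      _ = 2 ^ (10 + u + 2 * m * (1 + w) + 2 * (m * D) * e) := by
          rw [hqd, ← pow_succ', ← pow_add]
          congr 1
          ring)
  refine ⟨_, hP, ?_⟩
  rw [← hr]
  have hcl : Nat.clog 2 r ≤ u := Nat.clog_mono_right 2 (Nat.le_succ r)
  have hul : (u : ℝ) ≤ L := by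
    have h1 : u ≤ Nat.log 2 r + 1 :=
      Nat.clog_le_of_le_pow (Nat.lt_pow_succ_log_self (by norm_num) r)
    have h2 := log_le r
    have h3 : (u : ℝ) ≤ (Nat.log 2 r : ℝ) + 1 := by exact_mod_cast h1
    linarith
  have hwl : (w : ℝ) ≤ Λ + 1 := clog_le N
  rcases Nat.eq_zero_or_pos r with h0 | h0
  · have : Nat.clog 2 r = 0 := by rw [h0]; rfl
    rw [this, mul_zero, zero_add]
    calc ((2 : ℕ) : ℝ) ≤ 1060 * ((D : ℝ) + 1) * 1 := by push_cast; linarith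
      _ ≤ 1060 * ((D : ℝ) + 1) * ((g : ℝ) ^ 2 * L ^ 3 * (1 + Λ)) :=
          mul_le_mul_of_nonneg_left hone (by positivity)
      _ = _ := by ring
  · have hu1 : 1 ≤ u := Nat.clog_pos (by norm_num) (by omega)
    have h4 : 2 * (10 + u + 2 * m * (1 + w) + 2 * (m * D) * e) * Nat.clog 2 r + 2 ≤
        530 * (D + 1) * g ^ 2 * u ^ 3 * (1 + w) := by
      refine le_trans ?_ (post_arith D g u w hg hu1)
      have he' : e = 8 + 2 * u + m * (2 + w) := by rw [he]; ring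
      rw [he']
      exact Nat.add_le_add_right (Nat.mul_le_mul_left _ hcl) _
    have h5 : ((2 * (10 + u + 2 * m * (1 + w) + 2 * (m * D) * e) * Nat.clog 2 r + 2 : ℕ) : ℝ) ≤
        530 * ((D : ℝ) + 1) * (g : ℝ) ^ 2 * (u : ℝ) ^ 3 * (1 + (w : ℝ)) := by exact_mod_cast h4
    refine h5.trans ?_
    have h6 : (u : ℝ) ^ 3 * (1 + (w : ℝ)) ≤ L ^ 3 * (2 * (1 + Λ)) :=
      mul_le_mul (pow_le_pow_left₀ (Nat.cast_nonneg _) hul 3) (by linarith) (by positivity)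
        (by linarith)
    calc 530 * ((D : ℝ) + 1) * (g : ℝ) ^ 2 * (u : ℝ) ^ 3 * (1 + (w : ℝ)) =
        530 * ((D : ℝ) + 1) * (g : ℝ) ^ 2 * ((u : ℝ) ^ 3 * (1 + (w : ℝ))) := by ring
      _ ≤ 530 * ((D : ℝ) + 1) * (g : ℝ) ^ 2 * (L ^ 3 * (2 * (1 + Λ))) :=
          mul_le_mul_of_nonneg_left h6 (by positivity)
      _ = _ := by ring

/-- The same with a real lower bound `1 / t` for the probability of an output. -/
theorem proto_post_real {X Y ι : Type*} [Fintype X] [Fintype Y] [Fintype ι] (F : X → Y → Bool)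
    (t : ℝ) (ht : 1 ≤ t) (g D : ℕ) (hg : 1 ≤ g) (h : ι → X → Y → Bool) (lab : ι → Bool)
    (hG : ∀ i, Growth (h i) D) (p : ι → ℝ) (hp : ∀ i, 0 ≤ p i) (hp1 : ∑ i, p i ≤ 1)
    (hgap : ∀ x y, ((g : ℝ) + 1) * outWeight h lab p (!F x y) x y ≤
      g * outWeight h lab p (F x y) x y)
    (htot : ∀ x y, 1 ≤ t * (outWeight h lab p (F x y) x y + outWeight h lab p (!F x y) x y)) :
    ∃ b, Proto F b ∧ (b : ℝ) ≤ 2120 * ((D : ℝ) + 1) * (g : ℝ) ^ 2 *
      (Real.logb 2 ((comm F).rank : ℝ) + 1) ^ 3 * (1 + Real.logb 2 t) := by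
  have hN : 1 ≤ ⌈t⌉₊ := Nat.one_le_ceil_iff.mpr (by linarith)
  obtain ⟨b, hb, hle⟩ := proto_post F ⌈t⌉₊ g D hN hg h lab hG p hp hp1 hgap (fun x y =>
    (htot x y).trans (mul_le_mul_of_nonneg_right (Nat.le_ceil t)
      (add_nonneg (outWeight_nonneg h lab p hp _ _ _) (outWeight_nonneg h lab p hp _ _ _))))
  refine ⟨b, hb, hle.trans ?_⟩
  have hL0 := logb_nonneg (comm F).rank
  set L := Real.logb 2 ((comm F).rank : ℝ) + 1 with hL
  have ht0 : 0 ≤ Real.logb 2 t := Real.logb_nonneg (by norm_num) ht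
  have h1 : Real.logb 2 (⌈t⌉₊ : ℝ) ≤ 1 + Real.logb 2 t := by
    have h2 : (⌈t⌉₊ : ℝ) < t + 1 := Nat.ceil_lt_add_one (by linarith)
    have h3 : (0 : ℝ) < ⌈t⌉₊ := by exact_mod_cast hN
    have h4 : Real.logb 2 (⌈t⌉₊ : ℝ) ≤ Real.logb 2 (2 * t) :=
      Real.logb_le_logb_of_le (by norm_num) h3 (by linarith)
    rwa [Real.logb_mul (by norm_num) (by linarith), Real.logb_self_eq_one (by norm_num)] at h4
  have h5 : 1 + Real.logb 2 (⌈t⌉₊ : ℝ) ≤ 2 * (1 + Real.logb 2 t) := by linarith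
  calc 1060 * ((D : ℝ) + 1) * (g : ℝ) ^ 2 * L ^ 3 * (1 + Real.logb 2 (⌈t⌉₊ : ℝ)) ≤
      1060 * ((D : ℝ) + 1) * (g : ℝ) ^ 2 * L ^ 3 * (2 * (1 + Real.logb 2 t)) :=
        mul_le_mul_of_nonneg_left h5 (by positivity)
    _ = _ := by ring

end Pool.Agent.H72.LD
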