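import Pool.Agent.H72.LD.PostBound
import Pool.Agent.H72.LD.Equiv

set_option autoImplicit false

namespace Pool.Agent.H72.LD

open Finset Pool.Agent.H630R2.LR Pool.Agent.R533.VC

theorem vc_mono {X Y : Type*} {F : X → Y → Bool} {d d' : ℕ} (h : VCdim F d) (hd : d ≤ d') :
    VCdim F d' := fun k x hk => (h k x hk).trans hd

/-- indicator functions of rectangles -/
theorem vc_rectangle {X Y : Type*} (F : X → Y → Bool)
    (h : ∀ x x' y y', F x y = true → F x' y' = true → F x y' = true) : VCdim F 1 := by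
  intro k x hS
  by_contra hk
  push Not at hk
  obtain ⟨y, hy⟩ := hS (fun _ => true)
  obtain ⟨y', hy'⟩ := hS (fun i => decide (i.1 = 0))
  have h1 := hy ⟨1, by omega⟩
  have h2 := hy' ⟨0, by omega⟩
  have h3 := hy' ⟨1, by omega⟩
  simp only [decide_true] at h2
  have h4 := h _ _ _ _ h1 h2
  rw [h3] at h4
  simp at h4

/-! ### Protocols -/

theorem tr_mem {X Y : Type*} (owner : List Bool → Bool) (a : List Bool → X → Bool)
    (b : List Bool → Y → Bool) (x : X) (y : Y) (c : ℕ) :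
    ∃ τ : List.Vector Bool c, tr owner a b x y c = τ.1 :=
  ⟨⟨tr owner a b x y c, tr_length owner a b x y c⟩, rfl⟩

/-- Post-selected protocols with `c` bits whose leaves are labelled by functions of VC dimension at
most `d`. -/
theorem post_protocol {X Y Ω : Type} [Fintype X] [Fintype Y] [Fintype Ω] (F : X → Y → Bool)
    (c d g : ℕ) (t : ℝ) (hg : 1 ≤ g) (ht : 1 ≤ t) (owner : Ω → List Bool → Bool)
    (a : Ω → List Bool → X → Bool) (b : Ω → List Bool → Y → Bool)
    (h : Ω → List Bool → X → Y → Option Bool)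
    (hd : ∀ ω τ v, VCdim (fun x y => decide (h ω τ x y = some v)) d)
    (p : Ω → ℝ) (hp : ∀ ω, 0 ≤ p ω) (hp1 : ∑ ω, p ω = 1)
    (hgap : ∀ x y, ((g : ℝ) + 1) * (∑ ω, if h ω (tr (owner ω) (a ω) (b ω) x y c) x y =
        some (!F x y) then p ω else 0) ≤
      g * ∑ ω, if h ω (tr (owner ω) (a ω) (b ω) x y c) x y = some (F x y) then p ω else 0)
    (htot : ∀ x y, 1 ≤ t * ∑ ω, if h ω (tr (owner ω) (a ω) (b ω) x y c) x y ≠ none
      then p ω else 0) :
    ∃ bits, Proto F bits ∧ (bits : ℝ) ≤ 2120 * ((d : ℝ) + 2) * (g : ℝ) ^ 2 *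
      (Real.logb 2 ((comm F).rank : ℝ) + 1) ^ 3 * (c + 2 + Real.logb 2 t) := by
  classical
  have hcard : Fintype.card (List.Vector Bool c) = 2 ^ c := by
    rw [card_vector, Fintype.card_bool]
  let T : Ω → X → Y → List Bool := fun ω x y => tr (owner ω) (a ω) (b ω) x y c
  let ι := Ω × List.Vector Bool c × Bool
  let H : ι → X → Y → Bool := fun i x y =>
    decide (T i.1 x y = i.2.1.1) && decide (h i.1 i.2.1.1 x y = some i.2.2)
  let P : ι → ℝ := fun i => p i.1 / 2 ^ (c + 1)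
  have hG : ∀ i, Growth (H i) (d + 1) := by
    intro i
    have h1 : Growth (fun x y => decide (T i.1 x y = i.2.1.1)) 1 := by
      refine growth_of_vc _ _ (vc_rectangle _ ?_)
      intro x x' y y' h1 h2
      simp only [decide_eq_true_eq] at h1 h2 ⊢
      rw [← h1]
      exact tr_rect (owner i.1) (a i.1) (b i.1) x x' y y' c (h1.trans h2.symm)
    have h2 := growth_of_vc _ _ (hd i.1 i.2.1.1 i.2.2)
    have h3 := growth_comp 2 (fun j : Fin 2 => if j = 0 then
      (fun x y => decide (h i.1 i.2.1.1 x y = some i.2.2)) else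
      (fun x y => decide (T i.1 x y = i.2.1.1))) (fun j : Fin 2 => if j = 0 then d else 1)
      (by
        intro j
        by_cases hj : j = 0
        · simpa [hj] using h2
        · simpa [hj] using h1) (fun _ β => β 1 && β 0)
    rw [Fin.sum_univ_two] at h3
    simpa using h3
  have hlen : ∀ ω x y, ∃ τ : List.Vector Bool c, T ω x y = τ.1 := fun ω x y => tr_mem _ _ _ x y c
  have hout : ∀ v x y, outWeight H (fun i => i.2.2) P v x y =
      (∑ ω, if h ω (T ω x y) x y = some v then p ω else 0) / 2 ^ (c + 1) := by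
    intro v x y
    show (∑ i : Ω × List.Vector Bool c × Bool, if H i x y = true ∧ i.2.2 = v then P i else 0) = _
    rw [Fintype.sum_prod_type, sum_div]
    refine sum_congr rfl fun ω _ => ?_
    obtain ⟨τ₀, hτ₀⟩ := hlen ω x y
    rw [sum_eq_single (τ₀, v)]
    · show (if H (ω, τ₀, v) x y = true ∧ v = v then p ω / 2 ^ (c + 1) else 0) = _
      have e1 : H (ω, τ₀, v) x y = true ↔ h ω (T ω x y) x y = some v := by
        show (decide (T ω x y = τ₀.1) && decide (h ω τ₀.1 x y = some v)) = true ↔ _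
        rw [Bool.and_eq_true, decide_eq_true_eq, decide_eq_true_eq, hτ₀]
        exact ⟨fun hh => hh.2, fun hh => ⟨rfl, hh⟩⟩
      by_cases hh : h ω (T ω x y) x y = some v
      · rw [if_pos ⟨e1.mpr hh, rfl⟩, if_pos hh]
      · rw [if_neg (fun h' => hh (e1.mp h'.1)), if_neg hh, zero_div]
    · rintro ⟨τ, v'⟩ _ hne
      rw [if_neg]
      rintro ⟨h1, h2⟩
      apply hne
      have h3 : (decide (T ω x y = τ.1) && decide (h ω τ.1 x y = some v')) = true := h1
      rw [Bool.and_eq_true, decide_eq_true_eq] at h3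
      have h4 : τ = τ₀ := Subtype.ext (h3.1.symm.trans hτ₀)
      have h5 : v' = v := h2
      rw [h4, h5]
    · intro hh
      exact absurd (mem_univ _) hh
  have h2c : (0 : ℝ) < 2 ^ (c + 1) := by positivity
  have ht' : (1 : ℝ) ≤ 2 ^ (c + 1) * t := by
    have : (1 : ℝ) ≤ 2 ^ (c + 1) := one_le_pow₀ (by norm_num)
    nlinarith
  obtain ⟨bits, hb, hle⟩ := proto_post_real F (2 ^ (c + 1) * t) ht' g (d + 1) hg H
    (fun i => i.2.2) hG P (fun i => div_nonneg (hp i.1) h2c.le)
    (by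
      show ∑ i : Ω × List.Vector Bool c × Bool, p i.1 / 2 ^ (c + 1) ≤ 1
      rw [Fintype.sum_prod_type]
      have : ∀ ω, ∑ _j : List.Vector Bool c × Bool, p ω / 2 ^ (c + 1) = p ω := by
        intro ω
        rw [sum_const, card_univ, Fintype.card_prod, hcard, Fintype.card_bool, nsmul_eq_mul]
        push_cast
        rw [← pow_succ, mul_div_cancel₀ _ h2c.ne']
      rw [sum_congr rfl fun ω _ => this ω, hp1])
    (by
      intro x y
      rw [hout, hout, mul_div_assoc', mul_div_assoc']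
      exact div_le_div_of_nonneg_right (hgap x y) h2c.le)
    (by
      intro x y
      rw [hout, hout, ← add_div, mul_assoc, mul_div_assoc', mul_comm, div_mul_cancel₀ _ h2c.ne']
      refine (htot x y).trans (le_of_eq ?_)
      congr 1
      rw [← sum_add_distrib]
      refine sum_congr rfl fun ω _ => ?_
      show (if h ω (T ω x y) x y ≠ none then p ω else 0) = _
      cases hh : h ω (T ω x y) x y with
      | none => simp
      | some v => cases v <;> cases F x y <;> simp)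
  refine ⟨bits, hb, hle.trans (le_of_eq ?_)⟩
  rw [Real.logb_mul h2c.ne' (by linarith), Real.logb_pow, Real.logb_self_eq_one (by norm_num)]
  push_cast
  ring

/-! ### Equivalent forms -/

/-- Samples `i` with weights `p i`, each with an output `out i` and a function `h i` of VC dimension
at most `d` which says where it is used: for every pair the weight of the samples with the right
output is at least `1 + 1 / g` times the weight of those with the wrong output, and their sum is at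
least `1 / t`. -/
def PostVC {X Y : Type} (F : X → Y → Bool) (d g : ℕ) (t : ℝ) : Prop :=
  ∃ (N : ℕ) (h : Fin N → X → Y → Bool) (out : Fin N → Bool) (p : Fin N → ℝ),
    (∀ i, VCdim (h i) d) ∧ (∀ i, 0 ≤ p i) ∧ ∑ i, p i ≤ 1 ∧
    (∀ x y, ((g : ℝ) + 1) * (∑ i, if h i x y = true ∧ out i = !F x y then p i else 0) ≤
      g * ∑ i, if h i x y = true ∧ out i = F x y then p i else 0) ∧
    ∀ x y, 1 ≤ t * ∑ i, if h i x y = true then p i else 0

theorem proto_postVC {X Y : Type} [Fintype X] [Fintype Y] (F : X → Y → Bool) (d g : ℕ) (t : ℝ)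
    (hg : 1 ≤ g) (ht : 1 ≤ t) (h : PostVC F d g t) :
    ∃ bits, Proto F bits ∧ (bits : ℝ) ≤ 2120 * ((d : ℝ) + 1) * (g : ℝ) ^ 2 *
      (Real.logb 2 ((comm F).rank : ℝ) + 1) ^ 3 * (1 + Real.logb 2 t) := by
  obtain ⟨N, h, out, p, hd, hp, hp1, hgap, htot⟩ := h
  refine proto_post_real F t ht g d hg h out (fun i => growth_of_vc _ _ (hd i)) p hp hp1 hgap
    (fun x y => (htot x y).trans (le_of_eq ?_))
  congr 1
  show _ = (∑ i, if h i x y = true ∧ out i = F x y then p i else 0) +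
    ∑ i, if h i x y = true ∧ out i = !F x y then p i else 0
  rw [← sum_add_distrib]
  refine sum_congr rfl fun i _ => ?_
  cases h i x y <;> cases out i <;> cases F x y <;> simp

/-- All parameters are at most polylogarithmic in the rank. -/
def PostForm : Prop :=
  ∃ C k : ℕ, ∀ n : ℕ, ∀ F : (Fin n → ZMod 2) → (Fin n → ZMod 2) → Bool,
    ∃ (d g : ℕ) (t : ℝ), 1 ≤ g ∧ 1 ≤ t ∧ PostVC F d g t ∧
      (d : ℝ) ≤ C * (Real.logb 2 ((comm F).rank : ℝ)) ^ k + C ∧
      (g : ℝ) ≤ C * (Real.logb 2 ((comm F).rank : ℝ)) ^ k + C ∧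
      Real.logb 2 t ≤ C * (Real.logb 2 ((comm F).rank : ℝ)) ^ k + C

/-- Every function is the conjunction of quasipolynomially many functions of VC dimension at most
`d`. -/
def ConjForm (d : ℕ) : Prop :=
  ∃ C k : ℕ, ∀ n : ℕ, ∀ F : (Fin n → ZMod 2) → (Fin n → ZMod 2) → Bool,
    ∃ (m : ℕ) (h : Fin m → (Fin n → ZMod 2) → (Fin n → ZMod 2) → Bool),
      (∀ j, VCdim (h j) d) ∧ (∀ x y, F x y = true ↔ ∀ j, h j x y = true) ∧
      Real.logb 2 (m : ℝ) ≤ C * (Real.logb 2 ((comm F).rank : ℝ)) ^ k + C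

theorem logb_two_pow (c : ℕ) : Real.logb 2 ((2 ^ c : ℕ) : ℝ) = c := by
  rw [Nat.cast_pow, Nat.cast_ofNat, Real.logb_pow, Real.logb_self_eq_one (by norm_num), mul_one]

theorem postForm_of_logRank (h : LogRank) : PostForm := by
  classical
  obtain ⟨C, k, h⟩ := h
  refine ⟨C + 1, k, fun n F => ?_⟩
  obtain ⟨c, owner, a, b, out, hout, hc⟩ := h n F
  have hl0 : (0 : ℝ) ≤ (Real.logb 2 ((comm F).rank : ℝ)) ^ k := pow_nonneg (logb_nonneg _) k
  have hone : (1 : ℝ) ≤ ((C + 1 : ℕ) : ℝ) * (Real.logb 2 ((comm F).rank : ℝ)) ^ k +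
      ((C + 1 : ℕ) : ℝ) := by
    have h1 : (0 : ℝ) ≤ ((C + 1 : ℕ) : ℝ) * (Real.logb 2 ((comm F).rank : ℝ)) ^ k := by positivity
    have h2 : (1 : ℝ) ≤ ((C + 1 : ℕ) : ℝ) := by
      push_cast
      have : (0 : ℝ) ≤ C := Nat.cast_nonneg _
      linarith
    linarith
  have h2c : ((2 ^ c : ℕ) : ℝ) ≠ 0 := by positivity
  obtain ⟨τ, out', hout', hrect⟩ := labels F c ⟨owner, a, b, out, hout⟩
  refine ⟨1, 1, ((2 ^ c : ℕ) : ℝ), le_rfl, ?_, ⟨2 ^ c, fun i x y => decide (τ x y = i), out',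
    fun _ => 1 / ((2 ^ c : ℕ) : ℝ), ?_, fun _ => by positivity, ?_, ?_, ?_⟩, by simpa using hone,
    by simpa using hone, ?_⟩
  · exact_mod_cast Nat.one_le_two_pow
  · intro i
    refine vc_rectangle _ ?_
    intro x x' y y' h1 h2
    simp only [decide_eq_true_eq] at h1 h2 ⊢
    rw [hrect x x' y y' (h1.trans h2.symm), h1]
  · rw [sum_const, card_univ, Fintype.card_fin, nsmul_eq_mul, mul_one_div_cancel h2c]
  · intro x y
    have e1 : (∑ i : Fin (2 ^ c), if decide (τ x y = i) = true ∧ out' i = !F x y then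
        1 / ((2 ^ c : ℕ) : ℝ) else 0) = 0 := by
      refine sum_eq_zero fun i _ => ?_
      rw [if_neg]
      rintro ⟨h1, h2⟩
      rw [decide_eq_true_eq] at h1
      rw [← h1, hout'] at h2
      cases hF : F x y <;> rw [hF] at h2 <;> exact Bool.noConfusion h2
    rw [e1, mul_zero]
    refine mul_nonneg (Nat.cast_nonneg _) (sum_nonneg fun i _ => ?_)
    split_ifs <;> positivity
  · intro x y
    have e1 : (∑ i : Fin (2 ^ c), if decide (τ x y = i) = true then
        1 / ((2 ^ c : ℕ) : ℝ) else 0) = 1 / ((2 ^ c : ℕ) : ℝ) := by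
      rw [sum_eq_single (τ x y)]
      · rw [if_pos (decide_eq_true rfl)]
      · intro i _ hi
        rw [if_neg]
        simpa using fun hh => hi hh.symm
      · intro hh
        exact absurd (mem_univ _) hh
    rw [e1, mul_one_div_cancel h2c]
  · rw [logb_two_pow]
    refine hc.trans ?_
    have : (Real.logb 2 ((Matrix.of (fun x y : Fin n → ZMod 2 =>
      if F x y then (1 : ℝ) else 0)).rank : ℝ)) = Real.logb 2 ((comm F).rank : ℝ) := rfl
    rw [this]
    push_cast
    nlinarith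

theorem poly_bound' (A e : ℕ) (l v : ℝ) (hl : 0 ≤ l) (hv : v ≤ A * (l + 1) ^ e) :
    v ≤ ((A * 2 ^ (e - 1) : ℕ) : ℝ) * l ^ e + ((A * 2 ^ (e - 1) : ℕ) : ℝ) := by
  have h1 : (l + 1) ^ e ≤ 2 ^ (e - 1) * (l ^ e + 1) := by
    have := add_pow_le hl zero_le_one e
    simpa using this
  refine hv.trans ((mul_le_mul_of_nonneg_left h1 (Nat.cast_nonneg _)).trans (le_of_eq ?_))
  push_cast
  ring

theorem logRank_of_postForm (h : PostForm) : LogRank := by
  obtain ⟨C, k, h⟩ := h
  refine ⟨2120 * (2 * C + 1) ^ 4 * 2 ^ (4 * k + 3 - 1), 4 * k + 3, fun n F => ?_⟩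
  obtain ⟨d, g, t, hg, ht, hP, hd, hgC, htC⟩ := h n F
  obtain ⟨b, ⟨owner, a, b', out, hout⟩, hle⟩ := proto_postVC F d g t hg ht hP
  refine ⟨b, owner, a, b', out, hout, ?_⟩
  have hcomm : (Matrix.of (fun x y : Fin n → ZMod 2 => if F x y then (1 : ℝ) else 0)) = comm F :=
    rfl
  rw [hcomm]
  have hl0 := logb_nonneg (comm F).rank
  set l := Real.logb 2 ((comm F).rank : ℝ) with hl
  refine poly_bound' (2120 * (2 * C + 1) ^ 4) (4 * k + 3) l b hl0 (hle.trans ?_)
  have hz : (C : ℝ) * l ^ k + C + 1 ≤ (2 * C + 1) * (l + 1) ^ k := by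
    have h1 : l ^ k ≤ (l + 1) ^ k := pow_le_pow_left₀ hl0 (by linarith) k
    have h2 : (1 : ℝ) ≤ (l + 1) ^ k := one_le_pow₀ (by linarith)
    have hC : (0 : ℝ) ≤ C := Nat.cast_nonneg _
    nlinarith
  set Z := (2 * (C : ℝ) + 1) * (l + 1) ^ k with hZ
  have hZ0 : 0 ≤ Z := by positivity
  have ht0 : 0 ≤ Real.logb 2 t := Real.logb_nonneg (by norm_num) ht
  have hd1 : (d : ℝ) + 1 ≤ Z := by linarith
  have hg1 : (g : ℝ) ≤ Z := by linarith
  have ht1 : 1 + Real.logb 2 t ≤ Z := by linarith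
  have hg2 : (g : ℝ) ^ 2 ≤ Z ^ 2 := pow_le_pow_left₀ (Nat.cast_nonneg _) hg1 2
  calc 2120 * ((d : ℝ) + 1) * (g : ℝ) ^ 2 * (l + 1) ^ 3 * (1 + Real.logb 2 t)
      = 2120 * (l + 1) ^ 3 * ((((d : ℝ) + 1) * (g : ℝ) ^ 2) * (1 + Real.logb 2 t)) := by ring
    _ ≤ 2120 * (l + 1) ^ 3 * ((Z * Z ^ 2) * Z) := by
        refine mul_le_mul_of_nonneg_left ?_ (by positivity)
        exact mul_le_mul (mul_le_mul hd1 hg2 (by positivity) hZ0) ht1 (by linarith) (by positivity)
    _ = ((2120 * (2 * C + 1) ^ 4 : ℕ) : ℝ) * (l + 1) ^ (4 * k + 3) := by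
        rw [hZ]
        push_cast
        rw [pow_add (l + 1) (4 * k) 3, mul_comm 4 k, pow_mul]
        ring

theorem conjForm_of_logRank (h : LogRank) (d : ℕ) (hd : 1 ≤ d) : ConjForm d := by
  classical
  obtain ⟨C, k, h⟩ := h
  refine ⟨C, k, fun n F => ?_⟩
  obtain ⟨c, owner, a, b, out, hout, hc⟩ := h n F
  obtain ⟨τ, out', hout', hrect⟩ := labels F c ⟨owner, a, b, out, hout⟩
  refine ⟨2 ^ c, fun i x y => decide (¬ (τ x y = i ∧ out' i = false)), fun i => ?_, ?_, ?_⟩
  · refine vc_mono ?_ hd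
    refine vc_rect (fun x => ∃ y, τ x y = i) (fun y => out' i = false ∧ ∃ x, τ x y = i) _ ?_
    intro x y
    simp only [decide_eq_false_iff_not, not_not]
    constructor
    · rintro ⟨h1, h2⟩
      exact ⟨⟨y, h1⟩, h2, x, h1⟩
    · rintro ⟨⟨y', h1⟩, h2, x', h3⟩
      refine ⟨?_, h2⟩
      rw [hrect x x' y' y (h1.trans h3.symm), h1]
  · intro x y
    rw [← hout' x y]
    constructor
    · intro h1 i
      rw [decide_eq_true_eq]
      rintro ⟨h2, h3⟩
      rw [h2, h3] at h1
      exact Bool.noConfusion h1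
    · intro h1
      have h2 := h1 (τ x y)
      rw [decide_eq_true_eq] at h2
      cases h3 : out' (τ x y)
      · exact absurd ⟨rfl, h3⟩ h2
      · rfl
  · rw [logb_two_pow]
    exact hc

theorem logRank_of_conjForm (d : ℕ) (h : ConjForm d) : LogRank := by
  obtain ⟨C, k, h⟩ := h
  refine ⟨88 * (d + 1) * (1 + 2 * (C + 1)) * 2 ^ (1 + k), 1 + k + 1, fun n F => ?_⟩
  obtain ⟨m, h, hd, hF, hm⟩ := h n F
  obtain ⟨b, ⟨owner, a, b', out, hout⟩, hle⟩ := proto_conj F m d h
    (fun j => growth_of_vc _ _ (hd j)) hF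
  refine ⟨b, owner, a, b', out, hout, ?_⟩
  have hcomm : (Matrix.of (fun x y : Fin n → ZMod 2 => if F x y then (1 : ℝ) else 0)) = comm F :=
    rfl
  rw [hcomm]
  have hl0 := logb_nonneg (comm F).rank
  set l := Real.logb 2 ((comm F).rank : ℝ) with hl
  refine poly_bound (88 * (d + 1)) (C + 1) 1 k l b hl0 (hle.trans ?_)
  have h1 : Real.logb 2 ((m : ℝ) + 1) ≤ ((C + 1 : ℕ) : ℝ) * l ^ k + ((C + 1 : ℕ) : ℝ) := by
    have h0 : (0 : ℝ) ≤ l ^ k := pow_nonneg hl0 k
    rcases Nat.eq_zero_or_pos m with hm0 | hm0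
    · rw [hm0, Nat.cast_zero, zero_add, Real.logb_one]
      positivity
    · have hm1 : (1 : ℝ) ≤ m := by exact_mod_cast hm0
      have h2 : Real.logb 2 ((m : ℝ) + 1) ≤ Real.logb 2 (2 * m) :=
        Real.logb_le_logb_of_le (by norm_num) (by positivity) (by linarith)
      rw [Real.logb_mul (by norm_num) (by linarith), Real.logb_self_eq_one (by norm_num)] at h2
      push_cast
      linarith
  rw [pow_one]
  push_cast
  have h2 : (0 : ℝ) ≤ 88 * ((d : ℝ) + 1) * (l + 1) := by positivity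
  refine mul_le_mul_of_nonneg_left ?_ h2
  push_cast at h1
  linarith

end Pool.Agent.H72.LD
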